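import Pool.Agent.X208.GS.Coset

/-! The criterion for the orbits of almost all tuples under subgroups. -/

set_option autoImplicit false

namespace Pool.Agent.X208.GS

open Filter Topology MeasureTheory
open scoped ComplexConjugate
open Pool.Agent.X208.CM (mean mean_le share share_nonneg cheb diag ms_le share_of_sets)

section
variable {n : ℕ} {X : Fin n → Type} [∀ j, TopologicalSpace (X j)] [∀ j, MeasurableSpace (X j)]
  [∀ j, T2Space (X j)] [∀ j, LocallyCompactSpace (X j)] [∀ j, SecondCountableTopology (X j)]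
  [∀ j, BorelSpace (X j)] {μ : ∀ j, Measure (X j)} [∀ j, IsProbabilityMeasure (μ j)]
  {G : Fin n → ℕ → Type} [∀ j i, CommGroup (G j i)] [∀ j i, Fintype (G j i)]
  {φ : ∀ j i, G j i → X j}

omit [∀ j, T2Space (X j)] [∀ j, LocallyCompactSpace (X j)] [∀ j, SecondCountableTopology (X j)]
  [∀ j, BorelSpace (X j)] in
theorem share_coset {A : ℕ → Type} [∀ i, Group (A i)] [∀ i, Fintype (A i)]
    (π : ∀ i j, A i →* G j i) (f : ∀ j, X j → ℂ) (hf : ∀ j x, ‖f j x‖ ≤ 1)
    (h : ∀ j, ∀ ε : ℝ, 0 < ε →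
      ∀ᶠ i in atTop, Mass (π i j).range (dev (μ j) (φ j i) (f j)) ε)
    (ε : ℝ) (hε : 0 < ε) : Tendsto (fun i => share fun b : ∀ j, G j i =>
      ε < ‖(mean fun a : A i => ∏ j, f j (φ j i (π i j a * b j))) - ∏ j, ∫ z, f j z ∂μ j‖)
      atTop (𝓝 0) := by
  rw [tendsto_order]
  refine ⟨fun a ha => Eventually.of_forall fun i => ha.trans_le (share_nonneg _), fun δ hδ => ?_⟩
  obtain ⟨M, hM, hMδ⟩ : ∃ M : ℝ, 0 < M ∧ (n : ℝ) ^ 2 * M / ε ^ 2 < δ := by
    have hlim : Tendsto (fun w : ℝ => (n : ℝ) ^ 2 * w / ε ^ 2) (𝓝[>] 0) (𝓝 0) := by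
      have : Tendsto (fun w : ℝ => (n : ℝ) ^ 2 * w / ε ^ 2) (𝓝 0)
          (𝓝 ((n : ℝ) ^ 2 * 0 / ε ^ 2)) := by
        refine Continuous.tendsto ?_ 0
        fun_prop
      simp only [mul_zero, zero_div] at this
      exact this.mono_left nhdsWithin_le_nhds
    have h1 := (hlim.eventually_lt_const hδ).and self_mem_nhdsWithin
    obtain ⟨w, hw1, hw2⟩ := h1.exists
    exact ⟨w, hw2, hw1⟩
  have hev : ∀ᶠ i in atTop, ∀ j, Mass (π i j).range (dev (μ j) (φ j i) (f j)) M :=
    eventually_all.2 fun j => h j M hM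
  filter_upwards [hev] with i hi
  refine lt_of_le_of_lt (cheb (fun b : ∀ j, G j i =>
    (mean fun a : A i => ∏ j, f j (φ j i (π i j a * b j))) - ∏ j, ∫ z, f j z ∂μ j) hε ?_ ?_) hMδ
  · positivity
  · have := tupleM (A := A i) (G := fun j => G j i) (fun j a => π i j a)
      (fun j C => f j (φ j i C)) (fun j c => hf j _) (fun j => ∫ z, f j z ∂μ j)
      (fun j => integral_le (hf j)) hM.le (fun j F hF =>
        one_mass (π i j) F hF (dev (μ j) (φ j i) (f j)) (hi j))
    rw [Fintype.card_fin] at this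
    exact this

/-- The masses of the cosets of the functions in `S` tend to `0` uniformly. -/
def CosetLawOn {X : Type} [TopologicalSpace X] [MeasurableSpace X] (μ : Measure X) (S : Set (X → ℂ))
    {G : ℕ → Type} [∀ i, CommGroup (G i)] [∀ i, Fintype (G i)] (φ : ∀ i, G i → X)
    (B : ∀ i, Subgroup (G i)) : Prop := ∀ f ∈ S, (∃ K, IsCompact K ∧ IsT K f) → ∀ ε : ℝ, 0 < ε →
  ∀ᶠ i in atTop, Mass (B i) (dev μ (φ i) f) ε

theorem cosets {S : ∀ j, Set (X j → ℂ)} (hS : ∀ j, DenseTests (S j)) (A : ℕ → Type)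
    [∀ i, Group (A i)] [∀ i, Fintype (A i)] (π : ∀ i j, A i →* G j i)
    (hd : ∀ j, CosetLawOn (μ j) (S j) (φ j) fun i => (π i j).range) :
    ∃ E : ∀ i, Set (∀ j, G j i), Tendsto (fun i => share fun b => b ∈ E i) atTop (𝓝 0) ∧
      ∀ b : ∀ i j, G j i, (∀ᶠ i in atTop, b i ∉ E i) →
        Equi (Measure.pi μ) fun i (a : A i) j => φ j i (π i j a * b i j) := by
  choose g hg hap using fun j => exists_family (hS j)
  obtain ⟨e, he⟩ := exists_surjective_nat (Fin n → ℕ)
  obtain ⟨E, hE, hb⟩ := diag (B := fun i => ∀ j, G j i) (fun k i b =>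
    (mean fun a : A i => ∏ j, g j (e k j) (φ j i (π i j a * b j))) -
      ∏ j, ∫ z, g j (e k j) z ∂μ j)
    fun k ε hε => share_coset π (fun j => g j (e k j))
      (fun j => by
        obtain ⟨C, -, hC⟩ := (hg j (e k j)).2
        exact hC.2.2)
      (fun j => hd j _ (hg j (e k j)).1 (hg j (e k j)).2) ε hε
  refine ⟨E, hE, fun b hbE => equi_prod (I := fun _ => ℕ) (g := g) hap _ fun k _ => ?_⟩
  obtain ⟨k, rfl⟩ := he k
  exact hb b hbE k

end

section
variable {G : Type} [CommGroup G] [Fintype G] (A : Subgroup G) [Fintype A]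

/-- the mass of a coset is bounded by the pairs -/
theorem mass_pairs (g : G → ℂ) (χ : AddChar (Additive G) ℂ) :
    (Fintype.card G * sqSum A (twist g χ)) ^ 2 ≤
      ∑ p : G × G, ‖mean fun a : A => g (a * p.1) * conj (g (a * p.2))‖ ^ 2 := by
  classical
  have hk : (0 : ℝ) < Fintype.card A := by exact_mod_cast Fintype.card_pos
  have hkc : (Fintype.card A : ℂ) ≠ 0 := by exact_mod_cast Fintype.card_ne_zero
  set c : G → ℂ := fun b => mean fun a : A => g (a * b) * χ (Additive.ofMul (a : G)) with hc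
  set P : G × G → ℂ := fun p => mean fun a : A => g (a * p.1) * conj (g (a * p.2)) with hP
  set D : A → ℂ := fun a => ∑ b, conj (c b) * g (a * b) with hD
  set S : ℝ := ∑ b, ‖c b‖ ^ 2 with hS
  set W : ℝ := ∑ p, ‖P p‖ ^ 2 with hW
  set T : ℝ := ∑ a, ‖D a‖ ^ 2 with hT
  have hSS : Fintype.card G * sqSum A (twist g χ) = S := by
    rw [← meanSq_orbit]
    refine Finset.sum_congr rfl fun b _ => ?_
    have : (mean fun a : A => twist g χ (a * b)) = c b * χ (Additive.ofMul b) := by
      simp only [hc, twist, mean]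
      rw [div_mul_eq_mul_div, Finset.sum_mul]
      congr 1
      refine Finset.sum_congr rfl fun a _ => ?_
      rw [ofMul_mul, AddChar.map_add_eq_mul, mul_assoc]
    rw [this, norm_mul, AddChar.norm_apply, mul_one]
  have hS0 : 0 ≤ S := Finset.sum_nonneg fun _ _ => sq_nonneg _
  have hW0 : 0 ≤ W := Finset.sum_nonneg fun _ _ => sq_nonneg _
  have hT0 : 0 ≤ T := Finset.sum_nonneg fun _ _ => sq_nonneg _
  -- the first inequality
  have h1 : (Fintype.card A : ℝ) * S ^ 2 ≤ T := by
    have e1 : ((Fintype.card A * S : ℝ) : ℂ) = ∑ a : A, χ (Additive.ofMul (a : G)) * D a := by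
      have e2 : ∀ b, conj (c b) * c b = conj (c b) *
          ((∑ a : A, g (a * b) * χ (Additive.ofMul (a : G))) / Fintype.card A) := fun b => rfl
      push_cast
      have e3 : (S : ℂ) = ∑ b, conj (c b) * c b := by
        rw [hS]
        push_cast
        refine Finset.sum_congr rfl fun b _ => ?_
        rw [Complex.conj_mul']
      rw [e3, Finset.sum_congr rfl fun b _ => e2 b, Finset.mul_sum]
      simp only [hD, Finset.mul_sum]
      rw [Finset.sum_comm (s := Finset.univ (α := A))]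
      refine Finset.sum_congr rfl fun b _ => ?_
      have e4 : (Fintype.card A : ℂ) * (conj (c b) *
          ((∑ a : A, g (a * b) * χ (Additive.ofMul (a : G))) / Fintype.card A)) =
          conj (c b) * ∑ a : A, g (a * b) * χ (Additive.ofMul (a : G)) := by
        field_simp
      rw [e4, Finset.mul_sum]
      refine Finset.sum_congr rfl fun a _ => ?_
      ring
    have e5 : (Fintype.card A : ℝ) * S ≤ ∑ a, ‖D a‖ := by
      have := congrArg norm e1
      rw [Complex.norm_real, Real.norm_of_nonneg (by positivity)] at this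
      rw [this]
      refine (norm_sum_le _ _).trans (le_of_eq ?_)
      refine Finset.sum_congr rfl fun a _ => ?_
      rw [norm_mul, AddChar.norm_apply, one_mul]
    have e6 := sq_sum_le_card_mul_sum_sq (s := (Finset.univ : Finset A)) (f := fun a => ‖D a‖)
    rw [Finset.card_univ] at e6
    have e7 : ((Fintype.card A : ℝ) * S) ^ 2 ≤ Fintype.card A * T :=
      (pow_le_pow_left₀ (by positivity) e5 2).trans e6
    have e8 : (Fintype.card A : ℝ) * (Fintype.card A * S ^ 2) ≤ Fintype.card A * T := by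
      calc _ = ((Fintype.card A : ℝ) * S) ^ 2 := by ring
        _ ≤ _ := e7
    exact le_of_mul_le_mul_left e8 hk
  -- the second inequality
  have h2 : T ^ 2 ≤ (Fintype.card A : ℝ) ^ 2 * (S ^ 2 * W) := by
    have e1 : (T : ℂ) = Fintype.card A * ∑ p : G × G, (conj (c p.1) * c p.2) * P p := by
      have e3 : (T : ℂ) = ∑ a, D a * conj (D a) := by
        rw [hT]
        push_cast
        refine Finset.sum_congr rfl fun a _ => ?_
        rw [Complex.mul_conj']
      have e4 : ∀ p : G × G, (Fintype.card A : ℂ) * ((conj (c p.1) * c p.2) * P p) =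
          ∑ a : A, (conj (c p.1) * c p.2) * (g (a * p.1) * conj (g (a * p.2))) := by
        intro p
        simp only [hP, mean]
        rw [← Finset.mul_sum]
        field_simp
      rw [e3, Finset.mul_sum, Finset.sum_congr rfl fun p _ => e4 p, Finset.sum_comm]
      refine Finset.sum_congr rfl fun a _ => ?_
      simp only [hD]
      rw [map_sum, Finset.sum_mul_sum, ← Finset.sum_product']
      refine Finset.sum_congr rfl fun p _ => ?_
      rw [map_mul, Complex.conj_conj]
      ring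
    have e5 : T ≤ Fintype.card A * ∑ p : G × G, (‖c p.1‖ * ‖c p.2‖) * ‖P p‖ := by
      have := congrArg norm e1
      rw [Complex.norm_real, Real.norm_of_nonneg hT0, norm_mul, Complex.norm_natCast] at this
      rw [this]
      refine mul_le_mul_of_nonneg_left ((norm_sum_le _ _).trans (le_of_eq ?_)) hk.le
      refine Finset.sum_congr rfl fun p _ => ?_
      rw [norm_mul, norm_mul, Complex.norm_conj]
    have e6 := Finset.sum_mul_sq_le_sq_mul_sq (Finset.univ : Finset (G × G))
      (fun p => ‖c p.1‖ * ‖c p.2‖) (fun p => ‖P p‖)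
    have e7 : ∑ p : G × G, (‖c p.1‖ * ‖c p.2‖) ^ 2 = S ^ 2 := by
      rw [Fintype.sum_prod_type, sq S, hS, Finset.sum_mul_sum]
      refine Finset.sum_congr rfl fun b _ => Finset.sum_congr rfl fun b' _ => ?_
      rw [mul_pow]
    rw [e7] at e6
    calc T ^ 2 ≤ (Fintype.card A * ∑ p : G × G, (‖c p.1‖ * ‖c p.2‖) * ‖P p‖) ^ 2 :=
          pow_le_pow_left₀ hT0 e5 2
      _ = (Fintype.card A : ℝ) ^ 2 * (∑ p : G × G, (‖c p.1‖ * ‖c p.2‖) * ‖P p‖) ^ 2 := by ring
      _ ≤ _ := mul_le_mul_of_nonneg_left e6 (by positivity)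
  rw [hSS]
  rcases hS0.eq_or_lt with h0 | h0
  · rw [← h0]
    simpa using hW0
  · have h3 : ((Fintype.card A : ℝ) * S ^ 2) ^ 2 ≤ (Fintype.card A : ℝ) ^ 2 * (S ^ 2 * W) :=
      (pow_le_pow_left₀ (by positivity) h1 2).trans h2
    have h4 : ((Fintype.card A : ℝ) ^ 2 * S ^ 2) * S ^ 2 ≤
        ((Fintype.card A : ℝ) ^ 2 * S ^ 2) * W := by
      calc _ = ((Fintype.card A : ℝ) * S ^ 2) ^ 2 := by ring
        _ ≤ _ := h3
        _ = _ := by ring
    exact le_of_mul_le_mul_left h4 (by positivity)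

end

end Pool.Agent.X208.GS
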