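import Pool.Agent.X208.GS.Stm

/-! The masses of the cosets. -/

set_option autoImplicit false

namespace Pool.Agent.X208.GS

open Filter Topology MeasureTheory
open scoped ComplexConjugate
open Pool.Agent.X208.CM (mean parseval transform spread_hom coord)

section
variable {G : Type} [CommGroup G] [Fintype G]

/-- The function `f` times the character `χ`. -/
def twist (f : G → ℂ) (χ : AddChar (Additive G) ℂ) : G → ℂ := fun g => f g * χ (Additive.ofMul g)

/-- The sums of the squares of the Weyl sums of `f` over all cosets of the characters trivial on `B` are at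
most `M`. -/
def Mass (B : Subgroup G) (f : G → ℂ) (M : ℝ) : Prop := ∀ χ, sqSum B (twist f χ) ≤ M

theorem corr_mass (B : Subgroup G) [Fintype B] (F f : G → ℂ) (hF : ∀ g, g ∉ B → F g = 0) {M : ℝ}
    (hM : Mass B f M) : (B.index : ℝ) * ∑ b, ‖∑ g, F g * f (g * b)‖ ^ 2 ≤
      M * (Fintype.card G) ^ 2 * ∑ g, ‖F g‖ ^ 2 := by
  classical
  have hG : (0 : ℝ) < Fintype.card G := by exact_mod_cast Fintype.card_pos
  set u : AddChar (Additive G) ℂ → ℝ := fun ψ => ‖∑ g, F g * ψ (- Additive.ofMul g)‖ ^ 2 with hu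
  set v : AddChar (Additive G) ℂ → ℝ := fun ψ => ‖∑ c, f c * ψ (Additive.ofMul c)‖ ^ 2 with hv
  have h1 := parseval (fun b => ∑ g, F g * f (g * b))
  have h2 := parseval F
  have h3 : ∑ ψ, u ψ = Fintype.card G * ∑ a, ‖F a‖ ^ 2 := by
    rw [← h2]
    refine Fintype.sum_equiv (Equiv.neg (AddChar (Additive G) ℂ)) _ _ fun ψ => ?_
    simp only [hu]
    congr 2
  have h4 : ∑ ψ, u ψ * v ψ = Fintype.card G * ∑ b, ‖∑ g, F g * f (g * b)‖ ^ 2 := by
    rw [← h1]
    refine Finset.sum_congr rfl fun ψ _ => ?_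
    rw [transform, norm_mul, mul_pow]
  have hinv : ∀ θ, Trivial B θ → ∀ ψ, u (ψ + θ) = u ψ := by
    intro θ hθ ψ
    simp only [hu]
    congr 2
    refine Finset.sum_congr rfl fun g _ => ?_
    by_cases hg : g ∈ B
    · rw [AddChar.add_apply, ← ofMul_inv, hθ _ (B.inv_mem hg), mul_one]
    · rw [hF g hg, zero_mul, zero_mul]
  have hsh : ∀ θ, ∑ ψ, u (ψ + θ) * v (ψ + θ) = ∑ ψ, u ψ * v ψ := fun θ =>
    Fintype.sum_equiv (Equiv.addRight θ) _ _ fun ψ => rfl
  have hvm : ∀ ψ, ∑ θ with Trivial B θ, v (ψ + θ) ≤ M * (Fintype.card G) ^ 2 := by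
    intro ψ
    have e : ∀ θ, v (ψ + θ) = ‖weylSum (twist f ψ) θ‖ ^ 2 * (Fintype.card G) ^ 2 := by
      intro θ
      unfold weylSum mean twist
      rw [norm_div, div_pow, Complex.norm_natCast, div_mul_cancel₀ _ (by positivity)]
      simp only [hv]
      congr 2
      refine Finset.sum_congr rfl fun c _ => ?_
      rw [AddChar.add_apply, mul_assoc]
    rw [Finset.sum_congr rfl fun θ _ => e θ, ← Finset.sum_mul]
    exact mul_le_mul_of_nonneg_right (hM ψ) (by positivity)
  have h5 : (B.index : ℝ) * ∑ ψ, u ψ * v ψ ≤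
      M * (Fintype.card G) ^ 2 * (Fintype.card G * ∑ a, ‖F a‖ ^ 2) := by
    rw [← card_trivial B, ← h3, ← nsmul_eq_mul, ← Finset.sum_const]
    rw [Finset.sum_congr rfl fun θ _ => (hsh θ).symm]
    have e : ∀ θ ∈ (Finset.univ.filter fun θ => Trivial B θ),
        ∑ ψ, u (ψ + θ) * v (ψ + θ) = ∑ ψ, u ψ * v (ψ + θ) := by
      intro θ hθ
      refine Finset.sum_congr rfl fun ψ _ => ?_
      rw [hinv θ (Finset.mem_filter.1 hθ).2]
    rw [Finset.sum_congr rfl e, Finset.sum_comm, Finset.mul_sum]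
    refine Finset.sum_le_sum fun ψ _ => ?_
    rw [← Finset.mul_sum, mul_comm]
    exact mul_le_mul_of_nonneg_right (hvm ψ) (sq_nonneg _)
  rw [h4] at h5
  have h6 : (Fintype.card G : ℝ) * ((B.index : ℝ) * ∑ b, ‖∑ g, F g * f (g * b)‖ ^ 2) ≤
      Fintype.card G * (M * (Fintype.card G) ^ 2 * ∑ g, ‖F g‖ ^ 2) := by
    calc _ = (B.index : ℝ) * (Fintype.card G * ∑ b, ‖∑ g, F g * f (g * b)‖ ^ 2) := by ring
      _ ≤ _ := h5
      _ = _ := by ring
  exact le_of_mul_le_mul_left h6 hG

theorem one_mass {A : Type} [Group A] [Fintype A] (π : A →* G) (F : A → ℂ) (hF : ∀ a, ‖F a‖ ≤ 1)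
    (f : G → ℂ) {M : ℝ} (hM : Mass π.range f M) :
    ∑ b, ‖mean fun a => F a * f (π a * b)‖ ^ 2 ≤ M * Fintype.card G := by
  classical
  have hG : (0 : ℝ) < Fintype.card G := by exact_mod_cast Fintype.card_pos
  have hA : (0 : ℝ) < Fintype.card A := by exact_mod_cast Fintype.card_pos
  haveI : Fintype π.range := Fintype.ofFinite _
  obtain ⟨κ, hκ⟩ : ∃ κ : ℝ, κ = (π.range.index : ℝ) := ⟨_, rfl⟩
  have hκ0 : 0 < κ := by
    rw [hκ]
    exact_mod_cast Nat.pos_of_ne_zero Subgroup.index_ne_zero_of_finite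
  have hπ := spread_hom π (κ := κ) hκ.ge
  set F' : G → ℂ := fun g => ∑ a ∈ Finset.univ.filter (fun a => π a = g), F a with hF'
  have h1 : ∀ b, ∑ a, F a * f (π a * b) = ∑ g, F' g * f (g * b) := by
    intro b
    rw [← Finset.sum_fiberwise (s := Finset.univ) (g := π)]
    refine Finset.sum_congr rfl fun g _ => ?_
    rw [hF', Finset.sum_mul]
    refine Finset.sum_congr rfl fun a ha => ?_
    rw [(Finset.mem_filter.1 ha).2]
  have h3 : ∑ g, ‖F' g‖ ^ 2 ≤ κ * (Fintype.card A : ℝ) ^ 2 / Fintype.card G := by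
    have h4 : ∀ g, ‖F' g‖ ^ 2 ≤ ((Finset.univ.filter fun a => π a = g).card : ℝ) *
        (κ * Fintype.card A / Fintype.card G) := by
      intro g
      have h5 : ‖F' g‖ ≤ ((Finset.univ.filter fun a => π a = g).card : ℝ) := by
        refine (norm_sum_le _ _).trans ((Finset.sum_le_sum fun a _ => hF a).trans (le_of_eq ?_))
        rw [Finset.sum_const, nsmul_eq_mul, mul_one]
      have h6 : ((Finset.univ.filter fun a => π a = g).card : ℝ) ≤
          κ * Fintype.card A / Fintype.card G := by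
        rw [le_div_iff₀ hG]
        refine le_trans (le_of_eq ?_) (hπ g)
        congr 3
      calc ‖F' g‖ ^ 2 ≤ ((Finset.univ.filter fun a => π a = g).card : ℝ) ^ 2 :=
            pow_le_pow_left₀ (norm_nonneg _) h5 2
        _ = ((Finset.univ.filter fun a => π a = g).card : ℝ) *
            ((Finset.univ.filter fun a => π a = g).card : ℝ) := sq _
        _ ≤ _ := mul_le_mul_of_nonneg_left h6 (Nat.cast_nonneg _)
    refine (Finset.sum_le_sum fun g _ => h4 g).trans (le_of_eq ?_)
    rw [← Finset.sum_mul]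
    have h7 : ∑ g : G, ((Finset.univ.filter fun a => π a = g).card : ℝ) = Fintype.card A := by
      rw [← Nat.cast_sum, Nat.cast_inj, ← Finset.card_univ]
      exact (Finset.card_eq_sum_card_fiberwise (f := π) (s := Finset.univ) (t := Finset.univ)
        (fun _ _ => Finset.mem_coe.2 (Finset.mem_univ _))).symm
    rw [h7]
    field_simp
  have hM0 : 0 ≤ M := (sqSum_nonneg _ _).trans (hM 0)
  have h8 := corr_mass π.range F' f (fun g hg => by
    simp only [hF']
    rw [Finset.sum_eq_zero]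
    intro a ha
    exact absurd ⟨a, (Finset.mem_filter.1 ha).2⟩ hg) hM
  have h9 : ∀ b, ‖mean fun a => F a * f (π a * b)‖ ^ 2 =
      ‖∑ g, F' g * f (g * b)‖ ^ 2 / (Fintype.card A : ℝ) ^ 2 := by
    intro b
    unfold mean
    rw [norm_div, div_pow, Complex.norm_natCast, h1]
  rw [← hκ] at h8
  rw [Finset.sum_congr rfl fun b _ => h9 b, ← Finset.sum_div, div_le_iff₀ (by positivity)]
  have h10 : κ * ∑ b, ‖∑ g, F' g * f (g * b)‖ ^ 2 ≤
      κ * (M * Fintype.card G * (Fintype.card A : ℝ) ^ 2) := by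
    refine h8.trans ((mul_le_mul_of_nonneg_left h3 (by positivity)).trans (le_of_eq ?_))
    field_simp
  exact le_of_mul_le_mul_left h10 hκ0

end

section
variable {ι : Type} [Fintype ι] {G : ι → Type} [∀ j, CommGroup (G j)] [∀ j, Fintype (G j)]
  {A : Type} [Fintype A] [Nonempty A]

theorem tupleM [DecidableEq ι] (π : ∀ j, A → G j) (f : ∀ j, G j → ℂ)
    (hf : ∀ j c, ‖f j c‖ ≤ 1) (m : ι → ℂ) (hm : ∀ j, ‖m j‖ ≤ 1) {M : ℝ} (hM : 0 ≤ M)
    (hone : ∀ j, ∀ F : A → ℂ, (∀ a, ‖F a‖ ≤ 1) →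
      ∑ g : G j, ‖mean fun a => F a * (f j (π j a * g) - m j)‖ ^ 2 ≤ M * Fintype.card (G j)) :
    ∑ b : ∀ j, G j, ‖(mean fun a => ∏ j, f j (π j a * b j)) - ∏ j, m j‖ ^ 2 ≤
      (Fintype.card ι : ℝ) ^ 2 * M * Fintype.card (∀ j, G j) := by
  set X : Finset ι → (∀ j, G j) → ℂ := fun s b =>
    mean fun a => (∏ j ∈ s, f j (π j a * b j)) * ∏ j ∈ sᶜ, m j with hX
  have hA : (Fintype.card A : ℂ) ≠ 0 := by exact_mod_cast Fintype.card_ne_zero
  have hP : (0 : ℝ) ≤ Fintype.card (∀ j, G j) := Nat.cast_nonneg _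
  -- one step
  have hstep : ∀ (s : Finset ι) (j : ι), j ∉ s →
      ∑ b, ‖X (insert j s) b - X s b‖ ^ 2 ≤ M * Fintype.card (∀ j, G j) := by
    intro s j hj
    refine coord j (fun b => ‖X (insert j s) b - X s b‖ ^ 2) fun b => ?_
    have h1 : ∀ g : G j, X (insert j s) (b * Pi.mulSingle j g) - X s (b * Pi.mulSingle j g) =
        mean fun a => ((∏ l ∈ s, f l (π l a * b l)) * ∏ l ∈ (insert j s)ᶜ, m l) *
          (f j (π j a * (b j * g)) - m j) := by
      intro g
      have hl : ∀ l ∈ s, (b * Pi.mulSingle j g) l = b l := by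
        intro l hl
        have : l ≠ j := fun h => hj (h ▸ hl)
        rw [Pi.mul_apply, Pi.mulSingle_eq_of_ne this, mul_one]
      have hjj : (b * Pi.mulSingle j g) j = b j * g := by
        rw [Pi.mul_apply, Pi.mulSingle_eq_same]
      have hc : sᶜ = insert j (insert j s)ᶜ := by
        ext l
        simp only [Finset.mem_compl, Finset.mem_insert, not_or]
        constructor
        · intro h
          by_cases hlj : l = j
          · exact Or.inl hlj
          · exact Or.inr ⟨hlj, h⟩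
        · rintro (h | h)
          · rw [h]; exact hj
          · exact h.2
      simp only [hX, mean]
      rw [← sub_div, ← Finset.sum_sub_distrib]
      congr 1
      refine Finset.sum_congr rfl fun a _ => ?_
      rw [Finset.prod_insert hj, hc, Finset.prod_insert (by simp)]
      rw [Finset.prod_congr rfl fun l hl' => by rw [hl l hl'], hjj]
      ring
    simp only [h1]
    have h2 : ∑ g : G j, ‖mean fun a => ((∏ l ∈ s, f l (π l a * b l)) * ∏ l ∈ (insert j s)ᶜ, m l) *
          (f j (π j a * (b j * g)) - m j)‖ ^ 2 =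
        ∑ g : G j, ‖mean fun a => ((∏ l ∈ s, f l (π l a * b l)) * ∏ l ∈ (insert j s)ᶜ, m l) *
          (f j (π j a * g) - m j)‖ ^ 2 :=
      Fintype.sum_equiv (Equiv.mulLeft (b j)) _ _ fun g => rfl
    rw [h2]
    refine hone j (fun a => (∏ l ∈ s, f l (π l a * b l)) * ∏ l ∈ (insert j s)ᶜ, m l)
      (fun a => ?_)
    rw [norm_mul, norm_prod, norm_prod]
    refine mul_le_one₀ ?_ (Finset.prod_nonneg fun _ _ => norm_nonneg _) ?_
    · exact Finset.prod_le_one (fun _ _ => norm_nonneg _) fun l _ => hf l _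
    · exact Finset.prod_le_one (fun _ _ => norm_nonneg _) fun l _ => hm l
  -- all steps
  have hall : ∀ s : Finset ι, Real.sqrt (∑ b, ‖X s b - X ∅ b‖ ^ 2) ≤
      s.card * Real.sqrt (M * Fintype.card (∀ j, G j)) := by
    intro s
    induction s using Finset.induction with
    | empty => simp
    | insert j s hj ih =>
      have h1 := Real.sqrt_le_sqrt (hstep s j hj)
      have h2 : Real.sqrt (∑ b, ‖X (insert j s) b - X ∅ b‖ ^ 2) ≤
          Real.sqrt (∑ b, ‖X (insert j s) b - X s b‖ ^ 2) +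
          Real.sqrt (∑ b, ‖X s b - X ∅ b‖ ^ 2) := by
        have e : ∀ Y : (∀ j, G j) → ℂ, Real.sqrt (∑ b, ‖Y b‖ ^ 2) =
            ‖(WithLp.toLp 2 Y : EuclideanSpace ℂ (∀ j, G j))‖ := fun Y =>
          (EuclideanSpace.norm_eq _).symm
        rw [e (fun b => X (insert j s) b - X ∅ b), e (fun b => X (insert j s) b - X s b),
          e (fun b => X s b - X ∅ b)]
        refine le_trans (le_of_eq ?_) (norm_add_le _ _)
        congr 1
        ext b
        simp
      rw [Finset.card_insert_of_notMem hj]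
      push_cast
      linarith
  have h := hall Finset.univ
  have e1 : ∀ b, X Finset.univ b - X ∅ b = (mean fun a => ∏ j, f j (π j a * b j)) - ∏ j, m j := by
    intro b
    simp only [hX, Finset.compl_univ, Finset.prod_empty, mul_one, Finset.compl_empty, one_mul]
    congr 1
    unfold mean
    rw [Finset.sum_const, Finset.card_univ, nsmul_eq_mul, mul_div_cancel_left₀ _ hA]
  simp only [e1] at h
  have h0 : 0 ≤ ∑ b : ∀ j, G j, ‖(mean fun a => ∏ j, f j (π j a * b j)) - ∏ j, m j‖ ^ 2 :=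
    Finset.sum_nonneg fun _ _ => sq_nonneg _
  have h3 := mul_self_le_mul_self (Real.sqrt_nonneg _) h
  rw [Real.mul_self_sqrt h0] at h3
  refine h3.trans (le_of_eq ?_)
  rw [Finset.card_univ, mul_mul_mul_comm, Real.mul_self_sqrt (by positivity)]
  ring

end

end Pool.Agent.X208.GS
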