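import Pool.Agent.X208.GS.Tup

/-! The orbits of almost all tuples of a packet equidistribute if and only if all twisted Weyl sums tend to `0`
uniformly. -/

set_option autoImplicit false

namespace Pool.Agent.X208.GS

open Filter Topology MeasureTheory
open scoped ComplexConjugate
open Pool.Agent.X208.CM (mean mean_le mean_shift Weyl share share_eq share_mono share_nonneg Spread
  spread_id tuple cheb diag ms_le weyl_pair share_of_sets)

section
variable (X : Type) [TopologicalSpace X] [MeasurableSpace X] (μ : Measure X)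
  {G : ℕ → Type} [∀ i, CommGroup (G i)] [∀ i, Fintype (G i)] (φ : ∀ i, G i → X)

/-- The orbits of almost all `n`-tuples of points of the packets equidistribute in `X ^ n`. -/
def TupleOrbits (n : ℕ) : Prop := ∃ E : ∀ i, Set (Fin n → G i),
  Tendsto (fun i => share fun b => b ∈ E i) atTop (𝓝 0) ∧
    ∀ b : ∀ i, Fin n → G i, (∀ᶠ i in atTop, b i ∉ E i) →
      Equi (Measure.pi fun _ : Fin n => μ) fun i (a : G i) j => φ i (a * b i j)

/-- the same for products of test functions -/
def TupleLaw (n : ℕ) : Prop := ∀ f : Fin n → X → ℂ, (∀ j, ∃ K, IsCompact K ∧ IsT K (f j)) →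
  ∀ ε : ℝ, 0 < ε → Tendsto (fun i => share fun b : Fin n → G i =>
    ε < ‖(mean fun a : G i => ∏ j, f j (φ i (a * b j))) - ∏ j, ∫ z, f j z ∂μ‖) atTop (𝓝 0)

end

section
variable {X : Type} [TopologicalSpace X] [MeasurableSpace X] {μ : Measure X}
  {G : ℕ → Type} [∀ i, CommGroup (G i)] [∀ i, Fintype (G i)] {φ : ∀ i, G i → X}

theorem isT_conj {K : Set X} {f : X → ℂ} (hf : IsT K f) : IsT K (fun z => conj (f z)) :=
  ⟨Complex.continuous_conj.comp hf.1, fun x hx => by simp only [hf.2.1 x hx, map_zero],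
    fun x => by simp only [Complex.norm_conj]; exact hf.2.2 x⟩

theorem uniform_of_tuple (h1 : TupleLaw X μ φ 1) (h2 : TupleLaw X μ φ 2) :
    Uniform μ Set.univ φ := by
  rintro f - ⟨C, hC, hf⟩ ε hε
  set m := ∫ z, f z ∂μ with hm
  -- parameters
  set K : ℝ := (1 + ‖m‖) ^ 2 with hK
  obtain ⟨η, hη, hηε⟩ : ∃ η : ℝ, 0 < η ∧ η * K ^ 2 + (η * (1 + 2 * ‖m‖)) ^ 2 < ε ^ 4 := by
    have hlim : Tendsto (fun η : ℝ => η * K ^ 2 + (η * (1 + 2 * ‖m‖)) ^ 2) (𝓝[>] 0) (𝓝 0) := by
      have : Tendsto (fun η : ℝ => η * K ^ 2 + (η * (1 + 2 * ‖m‖)) ^ 2) (𝓝 0)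
          (𝓝 (0 * K ^ 2 + (0 * (1 + 2 * ‖m‖)) ^ 2)) := by
        refine Continuous.tendsto ?_ 0
        fun_prop
      simp only [zero_mul, ne_eq, OfNat.ofNat_ne_zero, not_false_eq_true, zero_pow, add_zero] at this
      exact this.mono_left nhdsWithin_le_nhds
    have h1 := (hlim.eventually_lt_const (by positivity : (0 : ℝ) < ε ^ 4)).and self_mem_nhdsWithin
    obtain ⟨η, hη1, hη2⟩ := h1.exists
    exact ⟨η, hη2, hη1⟩
  have e1 := h1 (fun _ => f) (fun _ => ⟨C, hC, hf⟩) η hη
  have e2 := h2 (fun j => if j = 0 then f else fun z => conj (f z))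
    (fun j => ⟨C, hC, by split_ifs; exacts [hf, isT_conj hf]⟩) η hη
  have e1' := e1.eventually_lt_const (zero_lt_one' ℝ)
  have e2' := e2.eventually_lt_const hη
  filter_upwards [e1', e2'] with i hi1 hi2
  set M : ℂ := (mean fun c => f (φ i c)) - m with hM
  -- the mean
  have hMη : ‖M‖ ≤ η := by
    by_contra hcon
    have hs : ∀ b : Fin 1 → G i, η < ‖(mean fun a : G i =>
        ∏ j : Fin 1, f (φ i (a * b j))) - ∏ j : Fin 1, ∫ z, f z ∂μ‖ := by
      intro b
      simp only [Finset.univ_unique, Finset.prod_singleton]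
      rw [mean_shift (fun c => f (φ i c)) (b default)]
      exact not_le.1 hcon
    have h3 : share (fun b : Fin 1 → G i => η < ‖(mean fun a : G i =>
        ∏ j : Fin 1, f (φ i (a * b j))) - ∏ j : Fin 1, ∫ z, f z ∂μ‖) = 1 := by
      classical
      rw [share_eq, Finset.filter_true_of_mem fun b _ => hs b, Finset.card_univ, div_self]
      exact_mod_cast Fintype.card_ne_zero
    rw [h3] at hi1
    exact lt_irrefl _ hi1
  -- the pairs
  intro ψ
  have hgle : ∀ c : G i, ‖f (φ i c) - m‖ ≤ 1 + ‖m‖ := fun c =>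
    (norm_sub_le _ _).trans (add_le_add_left (hf.2.2 _) _)
  have hexp : ∀ b : Fin 2 → G i,
      (mean fun a => (f (φ i (a * b 0)) - m) * conj (f (φ i (a * b 1)) - m)) =
      ((mean fun a => f (φ i (a * b 0)) * conj (f (φ i (a * b 1)))) - m * conj m) -
        conj m * M - m * conj M := by
    intro b
    have h0 : (Fintype.card (G i) : ℂ) ≠ 0 := by exact_mod_cast Fintype.card_ne_zero
    have s0 := mean_shift (fun c => f (φ i c)) (b 0)
    have s1 := mean_shift (fun c => f (φ i c)) (b 1)
    have s1' : conj (mean fun c => f (φ i c)) = mean fun a => conj (f (φ i (a * b 1))) := by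
      rw [← s1]
      unfold mean
      rw [map_div₀, map_sum, map_natCast]
    rw [hM, map_sub, s1', ← s0]
    have e : ∀ a, (f (φ i (a * b 0)) - m) * conj (f (φ i (a * b 1)) - m) =
        f (φ i (a * b 0)) * conj (f (φ i (a * b 1))) - conj m * f (φ i (a * b 0)) -
          m * conj (f (φ i (a * b 1))) + m * conj m := by
      intro a
      rw [map_sub]
      ring
    simp only [mean, e]
    rw [Finset.sum_add_distrib, Finset.sum_sub_distrib, Finset.sum_sub_distrib, ← Finset.mul_sum,
      ← Finset.mul_sum, Finset.sum_const, Finset.card_univ, nsmul_eq_mul]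
    field_simp
    ring
  have hT : ∀ b : Fin 2 → G i,
      ‖mean fun a => (f (φ i (a * b 0)) - m) * conj (f (φ i (a * b 1)) - m)‖ ≤ K := by
    intro b
    refine mean_le (by positivity) fun a => ?_
    rw [norm_mul, Complex.norm_conj, hK, sq]
    exact mul_le_mul (hgle _) (hgle _) (norm_nonneg _) (by positivity)
  have hms := ms_le (B := Fin 2 → G i) (fun b =>
    mean fun a => (f (φ i (a * b 0)) - m) * conj (f (φ i (a * b 1)) - m))
    (M := K) (ε := η * (1 + 2 * ‖m‖)) hT
  have hsh : share (fun b : Fin 2 → G i => η * (1 + 2 * ‖m‖) <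
      ‖mean fun a => (f (φ i (a * b 0)) - m) * conj (f (φ i (a * b 1)) - m)‖) ≤ η := by
    refine (share_mono fun b hb => ?_).trans hi2.le
    rw [hexp b] at hb
    have h4 : (mean fun a : G i => ∏ j : Fin 2,
        (if j = 0 then f else fun z => conj (f z)) (φ i (a * b j))) -
        ∏ j : Fin 2, ∫ z, (if j = 0 then f else fun z => conj (f z)) z ∂μ =
        (mean fun a => f (φ i (a * b 0)) * conj (f (φ i (a * b 1)))) - m * conj m := by
      simp only [Fin.prod_univ_two, if_true, Fin.isValue, one_ne_zero, if_false]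
      rw [integral_conj]
    rw [h4]
    by_contra hcon
    rw [not_lt] at hcon
    refine absurd hb (not_lt.2 ?_)
    refine (norm_sub_le _ _).trans ?_
    refine (add_le_add (norm_sub_le _ _) le_rfl).trans ?_
    rw [norm_mul, norm_mul, Complex.norm_conj, Complex.norm_conj]
    have := mul_le_mul_of_nonneg_left hMη (norm_nonneg m)
    linarith
  have hfin := weyl_pair (fun c => f (φ i c) - m) ψ
    (D := η * K ^ 2 + (η * (1 + 2 * ‖m‖)) ^ 2) (hms.trans ?_)
  · have h5 := hfin.trans hηε.le
    exact le_of_pow_le_pow_left₀ (by norm_num) hε.le h5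
  · gcongr

theorem isT_prod [T2Space X] {n : ℕ} {f : Fin n → X → ℂ}
    (hf : ∀ j, ∃ K, IsCompact K ∧ IsT K (f j)) :
    Continuous (fun z : Fin n → X => ∏ j, f j (z j)) ∧
      HasCompactSupport fun z : Fin n → X => ∏ j, f j (z j) := by
  choose K hK hT using hf
  refine ⟨continuous_finsetProd _ fun j _ => (hT j).1.comp (continuous_apply j),
    HasCompactSupport.intro (isCompact_univ_pi hK) fun z hz => ?_⟩
  have hz' : ∃ j, z j ∉ K j := by
    by_contra h
    push Not at h
    exact hz fun j _ => h j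
  obtain ⟨j, hj⟩ := hz'
  exact Finset.prod_eq_zero (Finset.mem_univ j) ((hT j).2.1 _ hj)

variable [T2Space X] [LocallyCompactSpace X] [SecondCountableTopology X] [BorelSpace X]
  [IsProbabilityMeasure μ]

omit [LocallyCompactSpace X] [BorelSpace X] in
theorem law_of_orbits {n : ℕ} (h : TupleOrbits X μ φ n) : TupleLaw X μ φ n := by
  intro f hf ε hε
  obtain ⟨E, hE, hb⟩ := h
  refine share_of_sets (B := fun i => Fin n → G i) hE fun b hbE => ?_
  have h1 := hb b hbE _ (isT_prod hf).1 (isT_prod hf).2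
  have h0 : ∫ z : Fin n → X, ∏ j, f j (z j) ∂(Measure.pi fun _ : Fin n => μ) =
      ∏ j, ∫ z, f j z ∂μ := integral_fintype_prod_eq_prod (μ := fun _ => μ) f
  rw [h0] at h1
  obtain ⟨i0, hi0⟩ := Metric.tendsto_atTop.1 h1 ε hε
  refine eventually_atTop.2 ⟨i0, fun i hi => ?_⟩
  have h3 := hi0 i hi
  rw [dist_eq_norm] at h3
  exact not_lt.2 h3.le

theorem orbits_of_uniform {S : Set (X → ℂ)} (hS : DenseTests S) (h : Uniform μ S φ) (n : ℕ) :
    TupleOrbits X μ φ n := by
  exact tuples (X := fun _ : Fin n => X) (μ := fun _ => μ) (G := fun _ => G) (φ := fun _ => φ)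
    (S := fun _ => S) (fun _ => hS) (fun _ => h) 1 G (fun i _ a => a) fun i j => spread_id

end

end Pool.Agent.X208.GS
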