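import Pool.Agent.X208.GS.Conv
import Pool.Agent.X208.GS.Pairs

/-! The criterion, and the statement. -/

set_option autoImplicit false

namespace Pool.Agent.X208.GS

open Filter Topology MeasureTheory
open scoped ComplexConjugate
open Pool.Agent.X208.CM (mean mean_le share share_nonneg cheb diag ms_le share_of_sets Weyl)

section
variable (X : Type) [TopologicalSpace X] [MeasurableSpace X] (μ : Measure X)
  {G : ℕ → Type} [∀ i, CommGroup (G i)] [∀ i, Fintype (G i)] (φ : ∀ i, G i → X)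
  (A : ∀ i, Subgroup (G i)) [∀ i, Fintype (A i)]

/-- The orbits under the subgroups `A i` of almost all `n`-tuples of points of the packets equidistribute
in `X ^ n`. -/
def TupleOrbitsOf (n : ℕ) : Prop := ∃ E : ∀ i, Set (Fin n → G i),
  Tendsto (fun i => share fun b => b ∈ E i) atTop (𝓝 0) ∧
    ∀ b : ∀ i, Fin n → G i, (∀ᶠ i in atTop, b i ∉ E i) →
      Equi (Measure.pi fun _ : Fin n => μ) fun i (a : A i) j => φ i (a * b i j)

/-- the same for products of test functions -/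
def TupleLawOf (n : ℕ) : Prop := ∀ f : Fin n → X → ℂ, (∀ j, ∃ K, IsCompact K ∧ IsT K (f j)) →
  ∀ ε : ℝ, 0 < ε → Tendsto (fun i => share fun b : Fin n → G i =>
    ε < ‖(mean fun a : A i => ∏ j, f j (φ i (a * b j))) - ∏ j, ∫ z, f j z ∂μ‖) atTop (𝓝 0)

end

section
variable {X : Type} [TopologicalSpace X] [MeasurableSpace X] {μ : Measure X} [T2Space X]
  [LocallyCompactSpace X] [SecondCountableTopology X] [BorelSpace X]
  [IsProbabilityMeasure μ] {G : ℕ → Type} [∀ i, CommGroup (G i)] [∀ i, Fintype (G i)]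
  {φ : ∀ i, G i → X} {A : ∀ i, Subgroup (G i)} [∀ i, Fintype (A i)]

omit [LocallyCompactSpace X] [SecondCountableTopology X] [BorelSpace X] in
theorem law_of_orbitsOf {n : ℕ} (h : TupleOrbitsOf X μ φ A n) : TupleLawOf X μ φ A n := by
  intro f hf ε hε
  obtain ⟨E, hE, hb⟩ := h
  refine share_of_sets (B := fun i => Fin n → G i) hE fun b hbE => ?_
  have h1 := hb b hbE _ (isT_prod hf).1 (isT_prod hf).2
  have h0 : ∫ z : Fin n → X, ∏ j, f j (z j) ∂(Measure.pi fun _ : Fin n => μ) =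
      ∏ j, ∫ z, f j z ∂μ := integral_fintype_prod_eq_prod (μ := fun _ => μ) f
  rw [h0] at h1
  obtain ⟨i0, hi0⟩ := Metric.tendsto_atTop.1 h1 ε hε
  refine eventually_atTop.2 ⟨i0, fun i hi => ?_⟩
  have h3 := hi0 i hi
  rw [dist_eq_norm] at h3
  exact not_lt.2 h3.le

omit [T2Space X] [LocallyCompactSpace X] [SecondCountableTopology X] [BorelSpace X] in
theorem coset_of_laws (h1 : TupleLawOf X μ φ A 1) (h2 : TupleLawOf X μ φ A 2) :
    CosetLawOn μ Set.univ φ A := by
  rintro f - ⟨C, hC, hf⟩ ε hε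
  set m := ∫ z, f z ∂μ with hm
  have hm1 : ‖m‖ ≤ 1 := integral_le hf.2.2
  obtain ⟨η, hη, hηε⟩ : ∃ η : ℝ, 0 < η ∧ 9 * (η * 2 ^ 2 + η ^ 2) < ε ^ 2 := by
    have hlim : Tendsto (fun η : ℝ => 9 * (η * 2 ^ 2 + η ^ 2)) (𝓝[>] 0) (𝓝 0) := by
      have : Tendsto (fun η : ℝ => 9 * (η * 2 ^ 2 + η ^ 2)) (𝓝 0)
          (𝓝 (9 * (0 * 2 ^ 2 + 0 ^ 2))) := by
        refine Continuous.tendsto ?_ 0
        fun_prop
      simp only [zero_mul, ne_eq, OfNat.ofNat_ne_zero, not_false_eq_true, zero_pow, add_zero,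
        mul_zero] at this
      exact this.mono_left nhdsWithin_le_nhds
    have h1 := (hlim.eventually_lt_const (by positivity : (0 : ℝ) < ε ^ 2)).and self_mem_nhdsWithin
    obtain ⟨η, hη1, hη2⟩ := h1.exists
    exact ⟨η, hη2, hη1⟩
  have e1 := (h1 (fun _ => f) (fun _ => ⟨C, hC, hf⟩) η hη).eventually_lt_const hη
  have e2 := (h2 (fun j => if j = 0 then f else fun z => conj (f z))
    (fun j => ⟨C, hC, by split_ifs; exacts [hf, isT_conj hf]⟩) η hη).eventually_lt_const hη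
  filter_upwards [e1, e2] with i hi1 hi2 χ
  have hG : (0 : ℝ) < Fintype.card (G i) := by exact_mod_cast Fintype.card_pos
  have hk : (Fintype.card (A i) : ℂ) ≠ 0 := by exact_mod_cast Fintype.card_ne_zero
  set Y : G i → ℂ := fun b => (mean fun a : A i => f (φ i (a * b))) - m with hY
  set Z : G i × G i → ℂ := fun p =>
    (mean fun a : A i => f (φ i (a * p.1)) * conj (f (φ i (a * p.2)))) - m * conj m with hZ
  have hfY : ∀ b, ‖Y b‖ ≤ 2 := by
    intro b
    have h3 : ‖mean fun a : A i => f (φ i (a * b))‖ ≤ 1 := mean_le zero_le_one fun a => hf.2.2 _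
    have h4 := norm_sub_le (mean fun a : A i => f (φ i (a * b))) m
    simp only [hY]
    linarith
  have hfZ : ∀ p, ‖Z p‖ ≤ 2 := by
    intro p
    have h3 : ‖mean fun a : A i => f (φ i (a * p.1)) * conj (f (φ i (a * p.2)))‖ ≤ 1 :=
      mean_le zero_le_one fun a => by
        rw [norm_mul, Complex.norm_conj]
        exact mul_le_one₀ (hf.2.2 _) (norm_nonneg _) (hf.2.2 _)
    have h5 : ‖m * conj m‖ ≤ 1 := by
      rw [norm_mul, Complex.norm_conj]
      exact mul_le_one₀ hm1 (norm_nonneg _) hm1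
    have h4 := norm_sub_le (mean fun a : A i => f (φ i (a * p.1)) * conj (f (φ i (a * p.2))))
      (m * conj m)
    simp only [hZ]
    linarith
  -- the mean squares
  have q1 : ∑ b, ‖Y b‖ ^ 2 ≤ (η * 2 ^ 2 + η ^ 2) * Fintype.card (G i) := by
    have e : ∑ b : Fin 1 → G i, ‖Y (b 0)‖ ^ 2 = ∑ b, ‖Y b‖ ^ 2 :=
      Fintype.sum_equiv (Equiv.funUnique (Fin 1) (G i)) _ _ fun b => rfl
    have h3 := ms_le (B := Fin 1 → G i) (fun b => Y (b 0)) (M := 2) (ε := η) fun b => hfY _
    rw [e, Fintype.card_fun, Fintype.card_fin, pow_one] at h3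
    have h4 : share (fun b : Fin 1 → G i => η < ‖Y (b 0)‖) < η := by
      refine lt_of_le_of_lt (le_of_eq ?_) hi1
      congr 1
      funext b
      simp only [hY, Finset.univ_unique, Fin.default_eq_zero, Finset.prod_singleton]
      rfl
    refine h3.trans (mul_le_mul_of_nonneg_right ?_ hG.le)
    nlinarith
  have q2 : ∑ p, ‖Z p‖ ^ 2 ≤ (η * 2 ^ 2 + η ^ 2) * (Fintype.card (G i)) ^ 2 := by
    have e : ∑ b : Fin 2 → G i, ‖Z (b 0, b 1)‖ ^ 2 = ∑ p, ‖Z p‖ ^ 2 :=
      Fintype.sum_equiv (finTwoArrowEquiv (G i)) _ _ fun b => rfl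
    have h3 := ms_le (B := Fin 2 → G i) (fun b => Z (b 0, b 1)) (M := 2) (ε := η) fun b => hfZ _
    rw [e, Fintype.card_fun, Fintype.card_fin] at h3
    push_cast at h3
    have h4 : share (fun b : Fin 2 → G i => η < ‖Z (b 0, b 1)‖) < η := by
      refine lt_of_le_of_lt (le_of_eq ?_) hi2
      congr 1
      funext b
      simp only [hZ, Fin.prod_univ_two, if_true, Fin.isValue, one_ne_zero, if_false]
      rw [integral_conj]
    refine h3.trans (mul_le_mul_of_nonneg_right ?_ (by positivity))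
    nlinarith
  -- the pairs
  have hP : ∀ p : G i × G i, (mean fun a : A i => dev μ (φ i) f (a * p.1) *
      conj (dev μ (φ i) f (a * p.2))) = Z p - conj m * Y p.1 - m * conj (Y p.2) := by
    intro p
    simp only [hZ, hY, dev, mean]
    rw [map_sub, map_div₀, map_sum, map_natCast]
    have e : ∀ a : A i, (f (φ i (a * p.1)) - ∫ x, f x ∂μ) *
        conj (f (φ i (a * p.2)) - ∫ x, f x ∂μ) =
        f (φ i (a * p.1)) * conj (f (φ i (a * p.2))) - conj m * f (φ i (a * p.1)) -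
          m * conj (f (φ i (a * p.2))) + m * conj m := by
      intro a
      rw [map_sub]
      ring
    rw [Finset.sum_congr rfl fun a _ => e a, Finset.sum_add_distrib, Finset.sum_sub_distrib,
      Finset.sum_sub_distrib, ← Finset.mul_sum, ← Finset.mul_sum, Finset.sum_const,
      Finset.card_univ, nsmul_eq_mul]
    field_simp
    ring
  have hP2 : ∀ p : G i × G i, ‖mean fun a : A i => dev μ (φ i) f (a * p.1) *
      conj (dev μ (φ i) f (a * p.2))‖ ^ 2 ≤
      3 * (‖Z p‖ ^ 2 + ‖Y p.1‖ ^ 2 + ‖Y p.2‖ ^ 2) := by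
    intro p
    rw [hP]
    have h3 : ‖Z p - conj m * Y p.1 - m * conj (Y p.2)‖ ≤ ‖Z p‖ + ‖Y p.1‖ + ‖Y p.2‖ := by
      refine (norm_sub_le _ _).trans (add_le_add ((norm_sub_le _ _).trans
        (add_le_add le_rfl ?_)) ?_)
      · rw [norm_mul, Complex.norm_conj]
        exact mul_le_of_le_one_left (norm_nonneg _) hm1
      · rw [norm_mul, Complex.norm_conj]
        exact mul_le_of_le_one_left (norm_nonneg _) hm1
    refine (pow_le_pow_left₀ (norm_nonneg _) h3 2).trans ?_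
    nlinarith [sq_nonneg (‖Z p‖ - ‖Y p.1‖), sq_nonneg (‖Z p‖ - ‖Y p.2‖),
      sq_nonneg (‖Y p.1‖ - ‖Y p.2‖)]
  have hsum : ∑ p : G i × G i, ‖mean fun a : A i => dev μ (φ i) f (a * p.1) *
      conj (dev μ (φ i) f (a * p.2))‖ ^ 2 ≤
      9 * (η * 2 ^ 2 + η ^ 2) * (Fintype.card (G i)) ^ 2 := by
    refine (Finset.sum_le_sum fun p _ => hP2 p).trans ?_
    rw [← Finset.mul_sum, Finset.sum_add_distrib, Finset.sum_add_distrib]
    have s1 : ∑ p : G i × G i, ‖Y p.1‖ ^ 2 = Fintype.card (G i) * ∑ b, ‖Y b‖ ^ 2 := by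
      rw [Fintype.sum_prod_type, Finset.mul_sum]
      refine Finset.sum_congr rfl fun b _ => ?_
      change ∑ _y : G i, ‖Y b‖ ^ 2 = _
      rw [Finset.sum_const, Finset.card_univ, nsmul_eq_mul]
    have s2 : ∑ p : G i × G i, ‖Y p.2‖ ^ 2 = Fintype.card (G i) * ∑ b, ‖Y b‖ ^ 2 := by
      rw [Fintype.sum_prod_type]
      change ∑ _x : G i, ∑ y : G i, ‖Y y‖ ^ 2 = _
      rw [Finset.sum_const, Finset.card_univ, nsmul_eq_mul]
    rw [s1, s2]
    have h5 := mul_le_mul_of_nonneg_left q1 hG.le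
    nlinarith
  have hfin := (mass_pairs (A i) (dev μ (φ i) f) χ).trans hsum
  have h6 : (Fintype.card (G i) : ℝ) ^ 2 * (sqSum (A i) (twist (dev μ (φ i) f) χ)) ^ 2 ≤
      (Fintype.card (G i) : ℝ) ^ 2 * ε ^ 2 := by
    calc _ = (Fintype.card (G i) * sqSum (A i) (twist (dev μ (φ i) f) χ)) ^ 2 := by ring
      _ ≤ _ := hfin
      _ = (Fintype.card (G i) : ℝ) ^ 2 * (9 * (η * 2 ^ 2 + η ^ 2)) := by ring
      _ ≤ _ := mul_le_mul_of_nonneg_left hηε.le (by positivity)
  have h7 := le_of_mul_le_mul_left h6 (by positivity)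
  exact le_of_pow_le_pow_left₀ (by norm_num) hε.le h7

theorem orbitsOf_of_coset {S : Set (X → ℂ)} (hS : DenseTests S) (h : CosetLawOn μ S φ A) (n : ℕ) :
    TupleOrbitsOf X μ φ A n := by
  have := cosets (X := fun _ : Fin n => X) (μ := fun _ => μ) (G := fun _ => G) (φ := fun _ => φ)
    (S := fun _ => S) (fun _ => hS) (fun i => A i) (fun i _ => (A i).subtype) (fun _ => by
      simpa only [Subgroup.range_subtype] using h)
  exact this

end

theorem coset_of_decay {X : Type} [TopologicalSpace X] [MeasurableSpace X] {μ : Measure X}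
    {S : Set (X → ℂ)} {G : ℕ → Type} [∀ i, CommGroup (G i)] [∀ i, Fintype (G i)] {φ : ∀ i, G i → X}
    {B : ∀ i, Subgroup (G i)} (h : Decay μ S φ fun i => Real.sqrt (B i).index) :
    CosetLawOn μ S φ B := by
  classical
  intro f hf hfT ε hε
  filter_upwards [h f hf hfT (Real.sqrt ε) (by positivity)] with i hi χ
  have : Fintype (B i) := Fintype.ofFinite _
  have hpos : (0 : ℝ) < (B i).index := by
    exact_mod_cast Nat.pos_of_ne_zero Subgroup.index_ne_zero_of_finite
  have hw : Weyl (twist (dev μ (φ i) f) χ) (Real.sqrt ε / Real.sqrt (B i).index) := by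
    intro ψ
    have e : (mean fun c => twist (dev μ (φ i) f) χ c * ψ (Additive.ofMul c)) =
        mean fun c => dev μ (φ i) f c * (χ + ψ) (Additive.ofMul c) := by
      unfold mean twist
      congr 1
      refine Finset.sum_congr rfl fun c _ => ?_
      simp only [AddChar.add_apply, mul_assoc]
    rw [e]
    exact hi (χ + ψ)
  refine (sqSum_le (B i) hw).trans (le_of_eq ?_)
  rw [div_pow, Real.sq_sqrt hε.le, Real.sq_sqrt hpos.le, mul_div_cancel₀ _ hpos.ne']

/-- The exact criterion for the orbits of almost all tuples, one sequence of packets. -/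
def Criterion : Prop := ∀ (X : Type) [TopologicalSpace X] [MeasurableSpace X] [T2Space X]
  [LocallyCompactSpace X] [SecondCountableTopology X] [BorelSpace X] (μ : Measure X)
  [IsProbabilityMeasure μ] (G : ℕ → Type) [∀ i, CommGroup (G i)] [∀ i, Fintype (G i)]
  (φ : ∀ i, G i → X) (A : ∀ i, Subgroup (G i)) [∀ i, Fintype (A i)],
  (CosetLawOn μ Set.univ φ A ↔ TupleOrbitsOf X μ φ A 1 ∧ TupleOrbitsOf X μ φ A 2) ∧
    (CosetLawOn μ Set.univ φ A ↔ ∀ n, TupleOrbitsOf X μ φ A n) ∧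
    ∀ S : Set (X → ℂ), DenseTests S → CosetLawOn μ S φ A → CosetLawOn μ Set.univ φ A

/-- Several sequences of packets in several spaces: almost all tuples. -/
def Several : Prop := ∀ (n : ℕ) (X : Fin n → Type) [∀ j, TopologicalSpace (X j)]
  [∀ j, MeasurableSpace (X j)] [∀ j, T2Space (X j)] [∀ j, LocallyCompactSpace (X j)]
  [∀ j, SecondCountableTopology (X j)] [∀ j, BorelSpace (X j)] (μ : ∀ j, Measure (X j))
  [∀ j, IsProbabilityMeasure (μ j)] (G : Fin n → ℕ → Type) [∀ j i, CommGroup (G j i)]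
  [∀ j i, Fintype (G j i)] (φ : ∀ j i, G j i → X j) (S : ∀ j, Set (X j → ℂ)),
  (∀ j, DenseTests (S j)) → ∀ (A : ℕ → Type) [∀ i, Group (A i)] [∀ i, Fintype (A i)]
  (π : ∀ i j, A i →* G j i), (∀ j, CosetLawOn (μ j) (S j) (φ j) fun i => (π i j).range) →
  ∃ E : ∀ i, Set (∀ j, G j i), Tendsto (fun i => share fun b => b ∈ E i) atTop (𝓝 0) ∧
    ∀ b : ∀ i j, G j i, (∀ᶠ i in atTop, b i ∉ E i) →
      Equi (Measure.pi μ) fun i (a : A i) j => φ j i (π i j a * b i j)

/-- Small Weyl sums. -/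
def Small : Prop := ∀ (X : Type) [TopologicalSpace X] [MeasurableSpace X] (μ : Measure X)
  (S : Set (X → ℂ)) (G : ℕ → Type) [∀ i, CommGroup (G i)] [∀ i, Fintype (G i)] (φ : ∀ i, G i → X)
  (B : ∀ i, Subgroup (G i)), (Decay μ S φ fun i => Real.sqrt (B i).index) → CosetLawOn μ S φ B

theorem criterion : Criterion := by
  intro X _ _ _ _ _ _ μ _ G _ _ φ A _
  have h0 : TupleOrbitsOf X μ φ A 1 ∧ TupleOrbitsOf X μ φ A 2 → CosetLawOn μ Set.univ φ A :=
    fun h => coset_of_laws (law_of_orbitsOf h.1) (law_of_orbitsOf h.2)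
  refine ⟨⟨fun h => ⟨orbitsOf_of_coset denseTests_univ h 1, orbitsOf_of_coset denseTests_univ h 2⟩,
    h0⟩, ⟨fun h => orbitsOf_of_coset denseTests_univ h, fun h => h0 ⟨h 1, h 2⟩⟩, fun S hS h => ?_⟩
  exact h0 ⟨orbitsOf_of_coset hS h 1, orbitsOf_of_coset hS h 2⟩

theorem several : Several := by
  intro n X _ _ _ _ _ _ μ _ G _ _ φ S hS A _ _ π hd
  exact cosets hS A π hd

theorem small : Small := by
  intro X _ _ μ S G _ _ φ B h
  exact coset_of_decay h

end Pool.Agent.X208.GS
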