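import Pool.Agent.X208.GS.One

/-! Packets and orbits in a space. -/

set_option autoImplicit false

namespace Pool.Agent.X208.GS

open Filter Topology MeasureTheory
open scoped ComplexConjugate
open Pool.Agent.X208.CM (mean cheb ms_le share share_nonneg diag mean_le share_of_sets mean_sub)

section
variable {X : Type} [TopologicalSpace X] [MeasurableSpace X]

/-- The orbits `x i` equidistribute: weak-star convergence of the counting measures to `μ`. -/
def Equi (μ : Measure X) {A : ℕ → Type} [∀ i, Fintype (A i)] (x : ∀ i, A i → X) : Prop :=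
  ∀ F : X → ℂ, Continuous F → HasCompactSupport F →
    Tendsto (fun i => mean fun a => F (x i a)) atTop (𝓝 (∫ z, F z ∂μ))

/-- The test function `f` at the points of the packet, minus its integral. -/
noncomputable def dev (μ : Measure X) {G : Type} (φ : G → X) (f : X → ℂ) : G → ℂ :=
  fun g => f (φ g) - ∫ x, f x ∂μ

variable [T2Space X] [LocallyCompactSpace X] [SecondCountableTopology X] [BorelSpace X]
  {μ : Measure X} [IsProbabilityMeasure μ]

omit [T2Space X] [LocallyCompactSpace X] [SecondCountableTopology X] [BorelSpace X] in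
theorem integral_le {f : X → ℂ} (hf : ∀ x, ‖f x‖ ≤ 1) : ‖∫ x, f x ∂μ‖ ≤ 1 := by
  have := norm_integral_le_of_norm_le_const (μ := μ) (Eventually.of_forall hf)
  simpa using this

omit [T2Space X] [LocallyCompactSpace X] [SecondCountableTopology X] in
theorem integrable {f : X → ℂ} (hf : Continuous f) {B : ℝ} (hB : ∀ x, ‖f x‖ ≤ B) :
    Integrable f μ :=
  Integrable.of_bound hf.aestronglyMeasurable B (Eventually.of_forall hB)

omit [T2Space X] [LocallyCompactSpace X] [SecondCountableTopology X] in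
/-- Convergence for a dense family gives it for all test functions. -/
theorem equi_of_family {K : Type} {g : K → X → ℂ}
    (hap : ∀ C : Set X, IsCompact C → ∃ C' : Set X, IsCompact C' ∧ ∀ f, IsT C f → ∀ δ : ℝ, 0 < δ →
      ∃ k, IsT C' (g k) ∧ ∀ x, ‖f x - g k x‖ ≤ δ)
    {A : ℕ → Type} [∀ i, Fintype (A i)] [∀ i, Nonempty (A i)] (x : ∀ i, A i → X)
    (h : ∀ k, (∃ C, IsCompact C ∧ IsT C (g k)) →
      Tendsto (fun i => mean fun a => dev μ (x i) (g k) a) atTop (𝓝 0)) : Equi μ x := by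
  intro F hF hFc
  -- a bound
  obtain ⟨B, hB⟩ := hFc.isCompact.exists_bound_of_continuousOn hF.continuousOn
  set B' := max B 1 with hB'
  have hB0 : 0 < B' := lt_of_lt_of_le one_pos (le_max_right _ _)
  have hFB : ∀ x, ‖F x‖ ≤ B' := by
    intro x
    by_cases hx : x ∈ tsupport F
    · exact (hB x hx).trans (le_max_left _ _)
    · rw [image_eq_zero_of_notMem_tsupport hx, norm_zero]
      exact hB0.le
  have hT : IsT (tsupport F) fun x => ((B' : ℝ) : ℂ)⁻¹ * F x := by
    refine ⟨continuous_const.mul hF, fun x hx => ?_, fun x => ?_⟩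
    · change ((B' : ℝ) : ℂ)⁻¹ * F x = 0
      rw [image_eq_zero_of_notMem_tsupport hx, mul_zero]
    · change ‖((B' : ℝ) : ℂ)⁻¹ * F x‖ ≤ 1
      rw [norm_mul, norm_inv, Complex.norm_real, Real.norm_of_nonneg hB0.le,
        inv_mul_le_iff₀ hB0, mul_one]
      exact hFB x
  obtain ⟨C', hC', happ⟩ := hap (tsupport F) hFc.isCompact
  rw [Metric.tendsto_atTop]
  intro ε hε
  obtain ⟨k, hk, hkF⟩ := happ _ hT (ε / (4 * B')) (by positivity)
  have hkF' : ∀ x, ‖F x - (B' : ℂ) * g k x‖ ≤ ε / 4 := by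
    intro x
    have h1 := hkF x
    have h2 : F x - (B' : ℂ) * g k x = (B' : ℂ) * (((B' : ℝ) : ℂ)⁻¹ * F x - g k x) := by
      rw [mul_sub, ← mul_assoc, mul_inv_cancel₀ (by exact_mod_cast hB0.ne'), one_mul]
    rw [h2, norm_mul, Complex.norm_real, Real.norm_of_nonneg hB0.le]
    calc B' * _ ≤ B' * (ε / (4 * B')) := mul_le_mul_of_nonneg_left h1 hB0.le
      _ = ε / 4 := by field_simp
  have hint : ‖(∫ z, F z ∂μ) - B' * ∫ z, g k z ∂μ‖ ≤ ε / 4 := by
    rw [← integral_const_mul, ← integral_sub (integrable hF hFB)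
      ((integrable hk.1 hk.2.2).const_mul _)]
    have := norm_integral_le_of_norm_le_const (μ := μ) (Eventually.of_forall hkF')
    simpa using this
  have hlim := tendsto_zero_iff_norm_tendsto_zero.1 (h k ⟨C', hC', hk⟩)
  have hev := hlim.eventually_lt_const (by positivity : (0 : ℝ) < ε / (4 * B'))
  obtain ⟨i0, hi0⟩ := eventually_atTop.1 hev
  refine ⟨i0, fun i hi => ?_⟩
  have h5 := hi0 i hi
  have hA : (Fintype.card (A i) : ℂ) ≠ 0 := by exact_mod_cast Fintype.card_ne_zero
  have h6 : (mean fun a => dev μ (x i) (g k) a) =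
      (mean fun a => g k (x i a)) - ∫ z, g k z ∂μ := by
    unfold mean dev
    rw [Finset.sum_sub_distrib, Finset.sum_const, Finset.card_univ, nsmul_eq_mul, sub_div,
      mul_div_cancel_left₀ _ hA]
  rw [h6] at h5
  have h7 : ‖(mean fun a => F (x i a)) - B' * mean fun a => g k (x i a)‖ ≤ ε / 4 := by
    have h8 : (B' : ℂ) * (mean fun a => g k (x i a)) = mean fun a => (B' : ℂ) * g k (x i a) := by
      unfold mean
      rw [← Finset.mul_sum, mul_div_assoc]
    rw [h8, mean_sub]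
    exact mean_le (by positivity) fun a => hkF' _
  rw [dist_eq_norm]
  have e : (mean fun a => F (x i a)) - ∫ z, F z ∂μ =
      ((mean fun a => F (x i a)) - B' * mean fun a => g k (x i a)) +
      B' * ((mean fun a => g k (x i a)) - ∫ z, g k z ∂μ) -
      ((∫ z, F z ∂μ) - B' * ∫ z, g k z ∂μ) := by ring
  rw [e]
  have h9 : ‖(B' : ℂ) * ((mean fun a => g k (x i a)) - ∫ z, g k z ∂μ)‖ ≤ ε / 4 := by
    rw [norm_mul, Complex.norm_real, Real.norm_of_nonneg hB0.le]
    calc B' * _ ≤ B' * (ε / (4 * B')) := mul_le_mul_of_nonneg_left h5.le hB0.le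
      _ = ε / 4 := by field_simp
  have h10 := norm_sub_le (((mean fun a => F (x i a)) - B' * mean fun a => g k (x i a)) +
      B' * ((mean fun a => g k (x i a)) - ∫ z, g k z ∂μ)) ((∫ z, F z ∂μ) - B' * ∫ z, g k z ∂μ)
  have h11 := norm_add_le ((mean fun a => F (x i a)) - B' * mean fun a => g k (x i a))
      (B' * ((mean fun a => g k (x i a)) - ∫ z, g k z ∂μ))
  linarith

end

section
variable (X : Type) [TopologicalSpace X] [MeasurableSpace X] (μ : Measure X)
  {G : ℕ → Type} [∀ i, CommGroup (G i)] [∀ i, Fintype (G i)] (φ : ∀ i, G i → X)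
  (A : ∀ i, Subgroup (G i)) [∀ i, Fintype (A i)]

/-- Outside sets of share tending to `0`, all orbits of the subgroups `A i` equidistribute. -/
def AlmostAllOrbits : Prop := ∃ E : ∀ i, Set (G i),
  Tendsto (fun i => share fun b => b ∈ E i) atTop (𝓝 0) ∧
    ∀ b : ∀ i, G i, (∀ᶠ i in atTop, b i ∉ E i) → Equi μ fun i (a : A i) => φ i (a * b i)

/-- All orbits of the subgroups `A i` equidistribute. -/
def AllOrbits : Prop := ∀ b : ∀ i, G i, Equi μ fun i (a : A i) => φ i (a * b i)

/-- The criterion for almost all orbits. -/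
def SquareLaw : Prop := ∀ f : X → ℂ, (∃ K, IsCompact K ∧ IsT K f) →
  Tendsto (fun i => sqSum (A i) (dev μ (φ i) f)) atTop (𝓝 0)

/-- The same for the functions in `S`. -/
def SquareLawOn (S : Set (X → ℂ)) : Prop := ∀ f ∈ S, (∃ K, IsCompact K ∧ IsT K f) →
  Tendsto (fun i => sqSum (A i) (dev μ (φ i) f)) atTop (𝓝 0)

/-- A sufficient condition for all orbits. -/
def AbsLawOn (S : Set (X → ℂ)) : Prop := ∀ f ∈ S, (∃ K, IsCompact K ∧ IsT K f) →
  Tendsto (fun i => absSum (A i) (dev μ (φ i) f)) atTop (𝓝 0)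

/-- A necessary condition for all orbits. -/
def SupLaw : Prop := ∀ f : X → ℂ, (∃ K, IsCompact K ∧ IsT K f) → ∀ ε : ℝ, 0 < ε →
  ∀ᶠ i in atTop, ∀ ψ, Trivial (A i) ψ → ‖weylSum (dev μ (φ i) f) ψ‖ ≤ ε

end

section
variable {X : Type} [TopologicalSpace X] [MeasurableSpace X] [T2Space X] [LocallyCompactSpace X]
  [SecondCountableTopology X] [BorelSpace X] {μ : Measure X} [IsProbabilityMeasure μ]
  {G : ℕ → Type} [∀ i, CommGroup (G i)] [∀ i, Fintype (G i)] {φ : ∀ i, G i → X}
  {A : ∀ i, Subgroup (G i)} [∀ i, Fintype (A i)]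

theorem sqSum_nonneg {H : Type} [CommGroup H] [Fintype H] (B : Subgroup H) (f : H → ℂ) :
    0 ≤ sqSum B f := by
  unfold sqSum
  exact Finset.sum_nonneg fun _ _ => sq_nonneg _

theorem almostAll_of_square {S : Set (X → ℂ)} (hS : DenseTests S)
    (h : SquareLawOn X μ φ A S) : AlmostAllOrbits X μ φ A := by
  obtain ⟨g, hg, hap⟩ := exists_family hS
  obtain ⟨E, hE, hb⟩ := diag (B := G) (fun k i b => mean fun a : A i => dev μ (φ i) (g k) (a * b))
    fun k ε hε => by
      have h1 := h (g k) (hg k).1 (hg k).2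
      have h2 : Tendsto (fun i => sqSum (A i) (dev μ (φ i) (g k)) / ε ^ 2) atTop (𝓝 0) := by
        have := h1.div_const (ε ^ 2)
        rwa [zero_div] at this
      refine squeeze_zero (fun i => share_nonneg _) (fun i => ?_) h2
      refine cheb (fun b => mean fun a : A i => dev μ (φ i) (g k) (a * b)) hε (sqSum_nonneg _ _) ?_
      rw [meanSq_orbit, mul_comm]
  refine ⟨E, hE, fun b hbE => equi_of_family hap _ fun k _ => ?_⟩
  exact hb b hbE k

theorem dev_le {f : X → ℂ} (hf : ∀ x, ‖f x‖ ≤ 1) {H : Type} (ψ : H → X) (g : H) :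
    ‖dev μ ψ f g‖ ≤ 2 := by
  unfold dev
  refine (norm_sub_le _ _).trans ?_
  have h1 := hf (ψ g)
  have h2 : ‖∫ x, f x ∂μ‖ ≤ 1 := integral_le hf
  linarith

theorem square_of_almostAll (h : AlmostAllOrbits X μ φ A) : SquareLaw X μ φ A := by
  rintro f ⟨K, hK, hf⟩
  obtain ⟨E, hE, hb⟩ := h
  have hsh : ∀ ε : ℝ, 0 < ε → Tendsto (fun i => share fun b : G i =>
      ε < ‖mean fun a : A i => dev μ (φ i) f (a * b)‖) atTop (𝓝 0) := by
    intro ε hε
    refine share_of_sets hE fun b hbE => ?_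
    have hcs : HasCompactSupport f := HasCompactSupport.intro hK hf.2.1
    have h1 := Metric.tendsto_atTop.1 (hb b hbE f hf.1 hcs) ε hε
    obtain ⟨i0, hi0⟩ := h1
    refine eventually_atTop.2 ⟨i0, fun i hi => ?_⟩
    have h2 := hi0 i hi
    have hA : (Fintype.card (A i) : ℂ) ≠ 0 := by exact_mod_cast Fintype.card_ne_zero
    have h3 : (mean fun a : A i => dev μ (φ i) f (a * b i)) =
        (mean fun a : A i => f (φ i (a * b i))) - ∫ z, f z ∂μ := by
      unfold mean dev
      rw [Finset.sum_sub_distrib, Finset.sum_const, Finset.card_univ, nsmul_eq_mul, sub_div,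
        mul_div_cancel_left₀ _ hA]
    rw [dist_eq_norm, ← h3] at h2
    exact not_lt.2 h2.le
  rw [Metric.tendsto_atTop]
  intro ε hε
  obtain ⟨η, hη, hηε⟩ : ∃ η : ℝ, 0 < η ∧ η * 2 ^ 2 + η ^ 2 < ε := by
    have hlim : Tendsto (fun η : ℝ => η * 2 ^ 2 + η ^ 2) (𝓝[>] 0) (𝓝 0) := by
      have : Tendsto (fun η : ℝ => η * 2 ^ 2 + η ^ 2) (𝓝 0) (𝓝 (0 * 2 ^ 2 + 0 ^ 2)) := by
        refine Continuous.tendsto ?_ 0
        fun_prop
      simp only [zero_mul, ne_eq, OfNat.ofNat_ne_zero, not_false_eq_true, zero_pow, add_zero] at this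
      exact this.mono_left nhdsWithin_le_nhds
    have h1 := (hlim.eventually_lt_const hε).and self_mem_nhdsWithin
    obtain ⟨η, hη1, hη2⟩ := h1.exists
    exact ⟨η, hη2, hη1⟩
  obtain ⟨i0, hi0⟩ := eventually_atTop.1 ((hsh η hη).eventually_lt_const hη)
  refine ⟨i0, fun i hi => ?_⟩
  rw [dist_zero_right, Real.norm_of_nonneg (sqSum_nonneg _ _)]
  have hG : (0 : ℝ) < Fintype.card (G i) := by exact_mod_cast Fintype.card_pos
  have h1 := ms_le (B := G i) (fun b => mean fun a : A i => dev μ (φ i) f (a * b)) (M := 2)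
    (ε := η) fun b => mean_le (by norm_num) fun a => dev_le hf.2.2 _ _
  rw [meanSq_orbit, mul_comm] at h1
  have h2 := le_of_mul_le_mul_right h1 hG
  have h3 := hi0 i hi
  nlinarith

theorem all_of_abs {S : Set (X → ℂ)} (hS : DenseTests S) (h : AbsLawOn X μ φ A S) :
    AllOrbits X μ φ A := by
  intro b
  refine equi_of_family (K := S) (g := fun f => f.1) (fun C hC => ?_) _ fun k hk => ?_
  · obtain ⟨C', hC', h1⟩ := hS C hC
    refine ⟨C', hC', fun f hf δ hδ => ?_⟩
    obtain ⟨g, hgS, hgT, hg⟩ := h1 f hf δ hδ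
    exact ⟨⟨g, hgS⟩, hgT, hg⟩
  · refine tendsto_zero_iff_norm_tendsto_zero.2 (squeeze_zero (fun _ => norm_nonneg _) (fun i => ?_)
      (h k.1 k.2 hk))
    exact orbit_le (A i) (dev μ (φ i) k.1) (b i)

theorem sup_of_all (h : AllOrbits X μ φ A) : SupLaw X μ φ A := by
  rintro f ⟨K, hK, hf⟩ ε hε
  have hmax : ∀ i, ∃ b : G i, ∀ b', ‖mean fun a : A i => dev μ (φ i) f (a * b')‖ ≤
      ‖mean fun a : A i => dev μ (φ i) f (a * b)‖ := fun i => Finite.exists_max _
  choose B hB using hmax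
  have hcs : HasCompactSupport f := HasCompactSupport.intro hK hf.2.1
  obtain ⟨i0, hi0⟩ := Metric.tendsto_atTop.1 (h B f hf.1 hcs) ε hε
  refine eventually_atTop.2 ⟨i0, fun i hi ψ hψ => ?_⟩
  have h2 := hi0 i hi
  have hA : (Fintype.card (A i) : ℂ) ≠ 0 := by exact_mod_cast Fintype.card_ne_zero
  have h3 : (mean fun a : A i => dev μ (φ i) f (a * B i)) =
      (mean fun a : A i => f (φ i (a * B i))) - ∫ z, f z ∂μ := by
    unfold mean dev
    rw [Finset.sum_sub_distrib, Finset.sum_const, Finset.card_univ, nsmul_eq_mul, sub_div,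
      mul_div_cancel_left₀ _ hA]
  rw [dist_eq_norm, ← h3] at h2
  exact weylSum_le (A i) _ ψ hψ hε.le fun b => (hB i b).trans h2.le

end

end Pool.Agent.X208.GS
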