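import Pool.Agent.X208.GS.Fin
import Pool.Agent.X208.MX.More

/-! One more factor, general spaces. -/

set_option autoImplicit false

namespace Pool.Agent.X208.GS

open Filter Topology MeasureTheory
open scoped ComplexConjugate
open Pool.Agent.X208.CM (mean mean_le mean_shift)
open Pool.Agent.X208.MX (diag_count count_hom Clusters mean_sub_const)

section
variable {X : Type} [TopologicalSpace X] [MeasurableSpace X] (μ : Measure X)
  {G : ℕ → Type} [∀ i, CommGroup (G i)] [∀ i, Fintype (G i)] (φ : ∀ i, G i → X)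

/-- The packets equidistribute. -/
def Packet : Prop := Equi μ fun i (a : G i) => φ i a

/-- The joint mean of `f`, `g` over the packet for the twist `σ`, minus the product of the integrals. -/
noncomputable def gap (i : ℕ) (f g : X → ℂ) (σ : G i) : ℂ :=
  (mean fun a : G i => f (φ i a) * g (φ i (a * σ))) - (∫ z, f z ∂μ) * ∫ z, g z ∂μ

/-- The orbits of the pairs with twist in `D i` and large size equidistribute. -/
def PairsOn (D : ∀ i, Set (G i)) (ν : ∀ i, G i → ℝ) : Prop :=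
  ∀ f g : X → ℂ, (∃ K, IsCompact K ∧ IsT K f) → (∃ K, IsCompact K ∧ IsT K g) →
    ∀ ε : ℝ, 0 < ε → ∃ B : ℝ, ∀ᶠ i in atTop, ∀ τ ∈ D i, B < ν i τ → ‖gap μ φ i f g τ‖ ≤ ε

/-- Boundedly many elements have bounded size. -/
def Sizes (G : ℕ → Type) (ν : ∀ i, G i → ℝ) : Prop :=
  ∀ B : ℝ, ∃ c : ℕ, ∀ i, Nat.card {τ // ν i τ ≤ B} ≤ c

end

section
variable {X : Type} [TopologicalSpace X] [MeasurableSpace X] {μ : Measure X} [T2Space X]
  [IsProbabilityMeasure μ] {G : ℕ → Type} [∀ i, CommGroup (G i)] [∀ i, Fintype (G i)]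
  {φ : ∀ i, G i → X}

theorem auto_small {D : ∀ i, Set (G i)} {ν : ∀ i, G i → ℝ}
    (hs : Packet μ φ) (hm : PairsOn μ φ D ν) {g : X → ℂ} (hg : ∃ K, IsCompact K ∧ IsT K g) {η : ℝ}
    (hη0 : 0 < η) : ∃ B : ℝ, ∀ᶠ i in atTop, ∀ τ ∈ D i, B < ν i τ →
      ‖mean fun a => dev μ (φ i) g a * conj (dev μ (φ i) g (a * τ))‖ ≤ η ^ 2 / 2 := by
  obtain ⟨C, hC, hT⟩ := hg
  obtain ⟨B, hB⟩ := hm g (fun z => conj (g z)) ⟨C, hC, hT⟩ ⟨C, hC, isT_conj hT⟩ (η ^ 2 / 4)
    (by positivity)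
  have hg1 : ‖∫ z, g z ∂μ‖ ≤ 1 := integral_le hT.2.2
  have hcs : HasCompactSupport g := HasCompactSupport.intro hC hT.2.1
  have e2 : ∀ᶠ i in atTop, ‖(mean fun a => g (φ i a)) - ∫ z, g z ∂μ‖ < η ^ 2 / 8 := by
    filter_upwards [(Metric.tendsto_nhds.1 (hs g hT.1 hcs)) (η ^ 2 / 8) (by positivity)] with i hi
    rwa [dist_eq_norm] at hi
  refine ⟨B, ?_⟩
  filter_upwards [hB, e2] with i hBi h2 τ hτ hντ
  have h3 := hBi τ hτ hντ
  set m := ∫ z, g z ∂μ with hmdef
  have e : (mean fun a => dev μ (φ i) g a * conj (dev μ (φ i) g (a * τ))) =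
      gap μ φ i g (fun z => conj (g z)) τ - conj m * ((mean fun a => g (φ i a)) - m) -
        m * conj ((mean fun a => g (φ i a)) - m) := by
    have s1 : (mean fun a => conj (g (φ i (a * τ)))) = conj (mean fun a => g (φ i a)) := by
      rw [← mean_shift (fun a => g (φ i a)) τ]
      unfold mean
      rw [map_div₀, map_sum, map_natCast]
    have h0 : (Fintype.card (G i) : ℂ) ≠ 0 := by exact_mod_cast Fintype.card_ne_zero
    have e3 : ∀ a, dev μ (φ i) g a * conj (dev μ (φ i) g (a * τ)) =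
        g (φ i a) * conj (g (φ i (a * τ))) - conj m * g (φ i a) -
          m * conj (g (φ i (a * τ))) + m * conj m := by
      intro a
      unfold dev
      rw [map_sub]
      ring
    rw [map_sub, ← s1]
    unfold gap
    rw [integral_conj]
    simp only [mean, e3]
    rw [Finset.sum_add_distrib, Finset.sum_sub_distrib, Finset.sum_sub_distrib, ← Finset.mul_sum,
      ← Finset.mul_sum, Finset.sum_const, Finset.card_univ, nsmul_eq_mul]
    field_simp
    ring
  rw [e]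
  have h4 := norm_sub_le (gap μ φ i g (fun z => conj (g z)) τ -
    conj m * ((mean fun a => g (φ i a)) - m)) (m * conj ((mean fun a => g (φ i a)) - m))
  have h5 := norm_sub_le (gap μ φ i g (fun z => conj (g z)) τ)
    (conj m * ((mean fun a => g (φ i a)) - m))
  have h6 : ‖conj m * ((mean fun a => g (φ i a)) - m)‖ ≤ η ^ 2 / 8 := by
    rw [norm_mul, Complex.norm_conj]
    exact (mul_le_of_le_one_left (norm_nonneg _) hg1).trans h2.le
  have h7 : ‖m * conj ((mean fun a => g (φ i a)) - m)‖ ≤ η ^ 2 / 8 := by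
    rw [norm_mul, Complex.norm_conj]
    exact (mul_le_of_le_one_left (norm_nonneg _) hg1).trans h2.le
  linarith

end

section
variable {n : ℕ} {X : Fin (n + 1) → Type} [∀ j, TopologicalSpace (X j)]
  [∀ j, MeasurableSpace (X j)] [∀ j, T2Space (X j)] [∀ j, LocallyCompactSpace (X j)]
  [∀ j, SecondCountableTopology (X j)] [∀ j, BorelSpace (X j)] {μ : ∀ j, Measure (X j)}
  [∀ j, IsProbabilityMeasure (μ j)] {G : ℕ → Type} [∀ i, CommGroup (G i)] [∀ i, Fintype (G i)]
  {φ : ∀ i, G i → X 0}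

theorem one_more {D : ∀ i, Set (G i)} {ν : ∀ i, G i → ℝ}
    (hs : Packet (μ 0) φ) (hν : Sizes G ν) (hm : PairsOn (μ 0) φ D ν) {A : ℕ → Type}
    [∀ i, Group (A i)] [∀ i, Fintype (A i)] (π : ∀ i, A i →* G i)
    (hπ : ∀ i, Function.Surjective (π i)) (y : ∀ i, A i → ∀ j : Fin n, X j.succ)
    (hy : Equi (Measure.pi fun j : Fin n => μ j.succ) y) {ω : ℕ → ℝ}
    (hω : Tendsto ω atTop atTop) : ∃ E : ∀ i, Set (G i),
      (∀ᶠ i in atTop, ∀ u ∈ Clusters (D i), (Nat.card {σ // σ ∈ u ∧ σ ∈ E i} : ℝ) ≤ ω i) ∧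
      ∀ σ : ∀ i, G i, (∀ᶠ i in atTop, σ i ∉ E i) →
        Equi (Measure.pi μ) fun i (a : A i) => (Fin.cons (φ i (π i a * σ i)) (y i a) : ∀ j, X j) := by
  classical
  choose g hg hap using fun j => exists_family (X := X j) denseTests_univ
  obtain ⟨e, he⟩ := exists_surjective_nat (Fin (n + 1) → ℕ)
  have hgle : ∀ j k x, ‖g j k x‖ ≤ 1 := fun j k => by
    obtain ⟨C, -, hC⟩ := (hg j k).2
    exact hC.2.2
  obtain ⟨E, hE, hb⟩ := diag_count (B := G) (fun i => Clusters (D i))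
    (fun k i σ => mean fun a : A i => (∏ j : Fin n, g j.succ (e k j.succ) (y i a j)) *
      dev (μ 0) (φ i) (g 0 (e k 0)) (π i a * σ))
    (fun k ε hε => by
      obtain ⟨B, hB⟩ := auto_small hs hm (hg 0 (e k 0)).2 hε
      obtain ⟨c, hc⟩ := hν B
      refine ⟨⌊2 * 2 ^ 2 * (c : ℝ) / ε ^ 2⌋₊, ?_⟩
      filter_upwards [hB] with i hBi u hu
      rw [Nat.card_eq_fintype_card, Fintype.card_subtype]
      refine Nat.le_floor ?_
      refine count_hom (π i) (hπ i) (fun a => ∏ j : Fin n, g j.succ (e k j.succ) (y i a j))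
        (dev (μ 0) (φ i) (g 0 (e k 0))) (fun a => ?_) (K := 2)
        (fun a => ?_) _ (fun τ => ν i τ ≤ B) hε (c := c) ?_ (fun σ hσ => ?_)
        fun σ hσ σ' hσ' hQ => ?_
      · rw [norm_prod]
        exact Finset.prod_le_one (fun _ _ => norm_nonneg _) fun j _ => hgle _ _ _
      · exact dev_le (hgle _ _) _ _
      · have h3 := hc i
        rw [Nat.card_eq_fintype_card, Fintype.card_subtype] at h3
        exact h3
      · exact (Finset.mem_filter.1 hσ).2.2
      · obtain ⟨-, hσu, -⟩ := Finset.mem_filter.1 hσ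
        obtain ⟨-, hσu', -⟩ := Finset.mem_filter.1 hσ'
        exact hBi _ (hu σ hσu σ' hσu') (not_le.1 hQ)) hω
  refine ⟨E, hE, fun σ hσ => equi_prod (I := fun _ => ℕ) (g := g) hap _ fun k _ => ?_⟩
  obtain ⟨l, hl⟩ := he k
  have h1 := hb σ hσ l
  rw [hl] at h1
  have h2 : Tendsto (fun i => (∫ z, g 0 (k 0) z ∂μ 0) * ((mean fun a : A i =>
      ∏ j : Fin n, g j.succ (k j.succ) (y i a j)) -
        ∏ j : Fin n, ∫ z, g j.succ (k j.succ) z ∂μ j.succ)) atTop (𝓝 0) := by
    have hcont : Continuous (fun z : ∀ j : Fin n, X j.succ => ∏ j, g j.succ (k j.succ) (z j)) :=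
      continuous_finsetProd _ fun j _ => by
        obtain ⟨C, -, hC⟩ := (hg j.succ (k j.succ)).2
        exact hC.1.comp (continuous_apply j)
    have hsupp : HasCompactSupport
        (fun z : ∀ j : Fin n, X j.succ => ∏ j, g j.succ (k j.succ) (z j)) := by
      choose C hC hT using fun j : Fin n => (hg j.succ (k j.succ)).2
      refine HasCompactSupport.intro (isCompact_univ_pi hC) fun z hz => ?_
      have hz' : ∃ j, z j ∉ C j := by
        by_contra h
        push Not at h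
        exact hz fun j _ => h j
      obtain ⟨j, hj⟩ := hz'
      exact Finset.prod_eq_zero (Finset.mem_univ j) ((hT j).2.1 _ hj)
    have h3 := hy _ hcont hsupp
    rw [integral_fintype_prod_eq_prod (μ := fun j : Fin n => μ j.succ)
      (fun j z => g j.succ (k j.succ) z)] at h3
    have h4 := h3.sub_const (∏ j : Fin n, ∫ z, g j.succ (k j.succ) z ∂μ j.succ)
    rw [sub_self] at h4
    simpa using h4.const_mul (∫ z, g 0 (k 0) z ∂μ 0)
  have h3 := h1.add h2
  rw [add_zero] at h3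
  refine h3.congr fun i => ?_
  simp only [Fin.prod_univ_succ, Fin.cons_zero, Fin.cons_succ]
  unfold mean dev
  simp only [mul_sub]
  rw [Finset.sum_sub_distrib, ← Finset.sum_mul]
  have e5 : ∑ a : A i, g 0 (k 0) (φ i (π i a * σ i)) * ∏ j : Fin n, g j.succ (k j.succ) (y i a j) =
      ∑ a : A i, (∏ j : Fin n, g j.succ (k j.succ) (y i a j)) * g 0 (k 0) (φ i (π i a * σ i)) :=
    Finset.sum_congr rfl fun a _ => mul_comm _ _
  rw [e5]
  ring

end

/-- The statement: one more factor, all twists but few. -/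
def OneMoreFactor : Prop := ∀ (n : ℕ) (X : Fin (n + 1) → Type) [∀ j, TopologicalSpace (X j)]
  [∀ j, MeasurableSpace (X j)] [∀ j, T2Space (X j)] [∀ j, LocallyCompactSpace (X j)]
  [∀ j, SecondCountableTopology (X j)] [∀ j, BorelSpace (X j)] (μ : ∀ j, Measure (X j))
  [∀ j, IsProbabilityMeasure (μ j)] (G : ℕ → Type) [∀ i, CommGroup (G i)] [∀ i, Fintype (G i)]
  (φ : ∀ i, G i → X 0), Packet (μ 0) φ →
  ∀ (ν : ∀ i, G i → ℝ) (D : ∀ i, Set (G i)), Sizes G ν → PairsOn (μ 0) φ D ν →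
  ∀ (A : ℕ → Type) [∀ i, Group (A i)] [∀ i, Fintype (A i)] (π : ∀ i, A i →* G i),
  (∀ i, Function.Surjective (π i)) → ∀ y : ∀ i, A i → ∀ j : Fin n, X j.succ,
  Equi (Measure.pi fun j : Fin n => μ j.succ) y → ∀ ω : ℕ → ℝ, Tendsto ω atTop atTop →
  ∃ E : ∀ i, Set (G i),
    (∀ᶠ i in atTop, ∀ u ∈ Clusters (D i), (Nat.card {σ // σ ∈ u ∧ σ ∈ E i} : ℝ) ≤ ω i) ∧
    ∀ σ : ∀ i, G i, (∀ᶠ i in atTop, σ i ∉ E i) →
      Equi (Measure.pi μ) fun i (a : A i) => (Fin.cons (φ i (π i a * σ i)) (y i a) : ∀ j, X j)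

theorem oneMoreFactor : OneMoreFactor := by
  intro n X _ _ _ _ _ _ μ _ G _ _ φ hs ν D hν hm A _ _ π hπ y hy ω hω
  exact one_more hs hν hm π hπ y hy hω

end Pool.Agent.X208.GS
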