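import Pool.Agent.X208.GS.Topo

/-! One space: packets and orbits of subgroups. -/

set_option autoImplicit false

namespace Pool.Agent.X208.GS

open Filter Topology MeasureTheory
open scoped ComplexConjugate
open Pool.Agent.X208.CM (mean parseval transform cheb ms_le share share_nonneg diag mean_le
  share_of_sets mean_sub mean_shift Weyl)

section
variable {G : Type} [CommGroup G] [Fintype G]

/-- The Weyl sum of `f` with the character `ψ` (a mean). -/
noncomputable def weylSum (f : G → ℂ) (ψ : AddChar (Additive G) ℂ) : ℂ :=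
  mean fun g => f g * ψ (Additive.ofMul g)

/-- The character `ψ` is trivial on `A`. -/
def Trivial (A : Subgroup G) (ψ : AddChar (Additive G) ℂ) : Prop :=
  ∀ a ∈ A, ψ (Additive.ofMul a) = 1

open Classical in
/-- The sum of the squares of the Weyl sums with the characters trivial on `A`. -/
noncomputable def sqSum (A : Subgroup G) (f : G → ℂ) : ℝ :=
  ∑ ψ with Trivial A ψ, ‖weylSum f ψ‖ ^ 2

open Classical in
/-- The sum of the absolute values of the Weyl sums with the characters trivial on `A`. -/
noncomputable def absSum (A : Subgroup G) (f : G → ℂ) : ℝ := ∑ ψ with Trivial A ψ, ‖weylSum f ψ‖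

variable (A : Subgroup G) [Fintype A]

theorem sum_char (ψ : AddChar (Additive G) ℂ) [Decidable (Trivial A ψ)] :
    ∑ a : A, ψ (- Additive.ofMul (a : G)) = if Trivial A ψ then (Fintype.card A : ℂ) else 0 := by
  split_ifs with h
  · have : ∀ a : A, ψ (- Additive.ofMul (a : G)) = 1 := fun a => by
      rw [← ofMul_inv]
      exact h _ (A.inv_mem a.2)
    rw [Finset.sum_congr rfl fun a _ => this a, Finset.sum_const, Finset.card_univ, nsmul_eq_mul,
      mul_one]
  · unfold Trivial at h
    push Not at h
    obtain ⟨a0, ha0, h0⟩ := h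
    set s := ∑ a : A, ψ (- Additive.ofMul (a : G)) with hs
    have h1 : s = ψ (Additive.ofMul a0) * s := by
      rw [hs, Finset.mul_sum]
      refine Fintype.sum_equiv (Equiv.mulLeft (⟨a0, ha0⟩ : A)) _ _ fun a => ?_
      rw [← AddChar.map_add_eq_mul]
      congr 1
      simp only [Equiv.coe_mulLeft, Subgroup.coe_mul, ofMul_mul, neg_add]
      abel
    have h2 : (1 - ψ (Additive.ofMul a0)) * s = 0 := by
      rw [sub_mul, one_mul, ← h1, sub_self]
    rcases mul_eq_zero.1 h2 with h3 | h3
    · exact absurd (sub_eq_zero.1 h3).symm h0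
    · exact h3

/-- the transform of the orbit means -/
theorem transform_orbit (f : G → ℂ) (ψ : AddChar (Additive G) ℂ) [Decidable (Trivial A ψ)] :
    weylSum (fun b => mean fun a : A => f (a * b)) ψ = if Trivial A ψ then weylSum f ψ else 0 := by
  classical
  have hA : (Fintype.card A : ℂ) ≠ 0 := by exact_mod_cast Fintype.card_ne_zero
  have h1 := transform (fun g => if g ∈ A then (1 : ℂ) else 0) f ψ
  have h2 : ∀ b, ∑ g, (if g ∈ A then (1 : ℂ) else 0) * f (g * b) = ∑ a : A, f (a * b) := by
    intro b
    simp only [ite_mul, one_mul, zero_mul]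
    rw [← Finset.sum_filter]
    refine Finset.sum_subtype (Finset.univ.filter fun x => x ∈ A) (fun x => ?_) _
    simp
  have h3 : ∑ g, (if g ∈ A then (1 : ℂ) else 0) * ψ (- Additive.ofMul g) =
      ∑ a : A, ψ (- Additive.ofMul (a : G)) := by
    simp only [ite_mul, one_mul, zero_mul]
    rw [← Finset.sum_filter]
    refine Finset.sum_subtype (Finset.univ.filter fun x => x ∈ A) (fun x => ?_) _
    simp
  rw [h3, sum_char] at h1
  simp only [h2] at h1
  unfold weylSum mean
  have h4 : ∑ b, (∑ a : A, f (a * b)) / (Fintype.card A : ℂ) * ψ (Additive.ofMul b) =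
      (∑ b, (∑ a : A, f (a * b)) * ψ (Additive.ofMul b)) / Fintype.card A := by
    rw [Finset.sum_div]
    exact Finset.sum_congr rfl fun b _ => by ring
  rw [h4, h1]
  split_ifs with h
  · rw [mul_div_cancel_left₀ _ hA]
  · rw [zero_mul, zero_div, zero_div]

/-- the mean square of the orbit means -/
theorem meanSq_orbit (f : G → ℂ) :
    ∑ b, ‖mean fun a : A => f (a * b)‖ ^ 2 = Fintype.card G * sqSum A f := by
  classical
  have hG : (Fintype.card G : ℝ) ≠ 0 := by exact_mod_cast Fintype.card_ne_zero
  have hGc : (Fintype.card G : ℂ) ≠ 0 := by exact_mod_cast Fintype.card_ne_zero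
  have h1 := parseval (fun b => mean fun a : A => f (a * b))
  have h2 : ∀ ψ : AddChar (Additive G) ℂ,
      ‖∑ b, (mean fun a : A => f (a * b)) * ψ (Additive.ofMul b)‖ ^ 2 =
      (Fintype.card G : ℝ) ^ 2 * (if Trivial A ψ then ‖weylSum f ψ‖ ^ 2 else 0) := by
    intro ψ
    have h3 : ∑ b, (mean fun a : A => f (a * b)) * ψ (Additive.ofMul b) =
        Fintype.card G * weylSum (fun b => mean fun a : A => f (a * b)) ψ := by
      unfold weylSum
      conv_rhs => rw [mean]
      rw [mul_div_cancel₀ _ hGc]
    rw [h3, transform_orbit, norm_mul, mul_pow, Complex.norm_natCast]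
    split_ifs <;> simp
  rw [Finset.sum_congr rfl fun ψ _ => h2 ψ, ← Finset.mul_sum, ← Finset.sum_filter] at h1
  have h4 : (Fintype.card G : ℝ) * (Fintype.card G * sqSum A f) =
      Fintype.card G * ∑ b, ‖mean fun a : A => f (a * b)‖ ^ 2 := by
    rw [← h1]
    unfold sqSum
    ring_nf
  exact (mul_left_cancel₀ hG h4).symm

/-- Fourier inversion -/
theorem inversion (H : G → ℂ) (b : G) :
    H b = ∑ ψ : AddChar (Additive G) ℂ, weylSum H ψ * ψ (- Additive.ofMul b) := by
  classical
  have hG : (Fintype.card G : ℂ) ≠ 0 := by exact_mod_cast Fintype.card_ne_zero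
  have h1 : ∀ c : G, ∑ ψ : AddChar (Additive G) ℂ, ψ (Additive.ofMul c - Additive.ofMul b) =
      if c = b then (Fintype.card G : ℂ) else 0 := by
    intro c
    rw [AddChar.sum_apply_eq_ite]
    have hc : Fintype.card (Additive G) = Fintype.card G := Fintype.card_congr Additive.toMul
    by_cases h : c = b
    · rw [if_pos h, if_pos (by rw [h, sub_self]), hc]
    · rw [if_neg h, if_neg]
      intro h0
      exact h (Additive.ofMul.injective (sub_eq_zero.1 h0))
  have h2 : ∑ ψ : AddChar (Additive G) ℂ, weylSum H ψ * ψ (- Additive.ofMul b) =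
      (∑ c, H c * ∑ ψ : AddChar (Additive G) ℂ, ψ (Additive.ofMul c - Additive.ofMul b)) /
        Fintype.card G := by
    unfold weylSum mean
    rw [Finset.sum_congr rfl fun c _ => Finset.mul_sum _ _ _, Finset.sum_comm, Finset.sum_div]
    refine Finset.sum_congr rfl fun ψ _ => ?_
    rw [div_mul_eq_mul_div, Finset.sum_mul]
    congr 1
    refine Finset.sum_congr rfl fun c _ => ?_
    rw [sub_eq_add_neg, AddChar.map_add_eq_mul]
    ring
  rw [h2]
  simp only [h1, mul_ite, mul_zero]
  rw [Finset.sum_ite_eq' Finset.univ b, if_pos (Finset.mem_univ b), mul_div_cancel_right₀ _ hG]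

/-- every orbit mean is at most the sum of the absolute values -/
theorem orbit_le (f : G → ℂ) (b : G) : ‖mean fun a : A => f (a * b)‖ ≤ absSum A f := by
  classical
  have h1 : (mean fun a : A => f (a * b)) = _ := inversion (fun b => mean fun a : A => f (a * b)) b
  rw [h1]
  refine (norm_sum_le _ _).trans ?_
  unfold absSum
  rw [Finset.sum_filter]
  refine Finset.sum_le_sum fun ψ _ => ?_
  rw [norm_mul, AddChar.norm_apply, mul_one, transform_orbit]
  split_ifs <;> simp

/-- the Weyl sums are bounded by the orbit means -/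
theorem weylSum_le (f : G → ℂ) (ψ : AddChar (Additive G) ℂ) (hψ : Trivial A ψ) {M : ℝ} (hM : 0 ≤ M)
    (h : ∀ b, ‖mean fun a : A => f (a * b)‖ ≤ M) : ‖weylSum f ψ‖ ≤ M := by
  classical
  have h1 := transform_orbit A f ψ
  rw [if_pos hψ] at h1
  rw [← h1]
  refine mean_le hM fun b => ?_
  rw [norm_mul, AddChar.norm_apply, mul_one]
  exact h b

end

end Pool.Agent.X208.GS
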