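import Pool.Agent.X208.GS.Main

/-! Products of spaces. -/

set_option autoImplicit false

namespace Pool.Agent.X208.GS

open Filter Topology MeasureTheory
open scoped ComplexConjugate
open Pool.Agent.X208.CM (mean mean_le mean_sub prod_sub_le Weyl factor peel coset_le)

section
variable {n : ℕ} {X : Fin n → Type} [∀ j, TopologicalSpace (X j)] [∀ j, MeasurableSpace (X j)]
  [∀ j, T2Space (X j)] [∀ j, LocallyCompactSpace (X j)] [∀ j, SecondCountableTopology (X j)]
  [∀ j, BorelSpace (X j)] {μ : ∀ j, Measure (X j)} [∀ j, IsProbabilityMeasure (μ j)]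

theorem equi_prod {I : Fin n → Type} {g : ∀ j, I j → X j → ℂ}
    (hap : ∀ j, ∀ C : Set (X j), IsCompact C → ∃ C' : Set (X j), IsCompact C' ∧ ∀ f, IsT C f →
      ∀ δ : ℝ, 0 < δ → ∃ k, IsT C' (g j k) ∧ ∀ x, ‖f x - g j k x‖ ≤ δ)
    {A : ℕ → Type} [∀ i, Fintype (A i)] [∀ i, Nonempty (A i)] (x : ∀ i, A i → ∀ j, X j)
    (h : ∀ k : ∀ j, I j, (∀ j, ∃ C, IsCompact C ∧ IsT C (g j (k j))) →
      Tendsto (fun i => (mean fun a => ∏ j, g j (k j) (x i a j)) -
        ∏ j, ∫ z, g j (k j) z ∂μ j) atTop (𝓝 0)) : Equi (Measure.pi μ) x := by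
  intro F hFc hFs
  obtain ⟨C, hC, happ⟩ := approx hFc hFs
  choose C' hC' hap' using fun j => hap j (C j) (hC j)
  rw [Metric.tendsto_atTop]
  intro ε hε
  set δ : ℝ := ε / 8 with hδ
  have hδ0 : 0 < δ := by positivity
  obtain ⟨ι, iι, c, f, hf, hfF⟩ := happ δ hδ0
  have hS0 : 0 ≤ ∑ k, ‖c k‖ := Finset.sum_nonneg fun _ _ => norm_nonneg _
  set δ' : ℝ := δ / (1 + n * ∑ k, ‖c k‖) with hδ'
  have hδ'0 : 0 < δ' := by positivity
  choose κ hκT hκ using fun (k : ι) (j : Fin n) => hap' j (f k j) (hf k j) δ' hδ'0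
  let H : ι → (∀ j, X j) → ℂ := fun k z => ∏ j, g j (κ k j) (z j)
  let G : (∀ j, X j) → ℂ := fun z => ∑ k, c k * H k z
  have hH1 : ∀ k z, ‖H k z‖ ≤ 1 := by
    intro k z
    change ‖∏ j, g j (κ k j) (z j)‖ ≤ 1
    rw [norm_prod]
    exact Finset.prod_le_one (fun _ _ => norm_nonneg _) fun j _ => (hκT k j).2.2 _
  have hHc : ∀ k, Continuous (H k) := fun k =>
    continuous_finset_prod _ fun j _ => (hκT k j).1.comp (continuous_apply j)
  have hHi : ∀ k, Integrable (H k) (Measure.pi μ) := fun k => integrable (hHc k) (hH1 k)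
  have hFG : ∀ z, ‖F z - G z‖ ≤ 2 * δ := by
    intro z
    have h1 : ‖(∑ k, c k * ∏ j, f k j (z j)) - G z‖ ≤ δ := by
      change ‖(∑ k, c k * ∏ j, f k j (z j)) - ∑ k, c k * ∏ j, g j (κ k j) (z j)‖ ≤ δ
      rw [← Finset.sum_sub_distrib]
      have h2 : ∀ k, ‖c k * ∏ j, f k j (z j) - c k * ∏ j, g j (κ k j) (z j)‖ ≤
          ‖c k‖ * (n * δ') := by
        intro k
        rw [← mul_sub, norm_mul]
        refine mul_le_mul_of_nonneg_left ?_ (norm_nonneg _)
        have := prod_sub_le Finset.univ (fun j => f k j (z j)) (fun j => g j (κ k j) (z j))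
          (fun j => (hf k j).2.2 _) (fun j => (hκT k j).2.2 _) (δ := δ') fun j => hκ k j _
        rwa [Finset.card_univ, Fintype.card_fin] at this
      refine (norm_sum_le _ _).trans ((Finset.sum_le_sum fun k _ => h2 k).trans ?_)
      rw [← Finset.sum_mul, hδ']
      rw [show (∑ k, ‖c k‖) * (n * (δ / (1 + n * ∑ k, ‖c k‖))) =
        δ * ((n * ∑ k, ‖c k‖) / (1 + n * ∑ k, ‖c k‖)) by ring]
      refine mul_le_of_le_one_right hδ0.le ?_
      rw [div_le_one (by positivity)]
      linarith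
    have h3 := norm_add_le (F z - ∑ k, c k * ∏ j, f k j (z j))
      ((∑ k, c k * ∏ j, f k j (z j)) - G z)
    rw [sub_add_sub_cancel] at h3
    have h4 := hfF z
    linarith
  have hFi : Integrable F (Measure.pi μ) := by
    obtain ⟨B, hB⟩ := hFs.isCompact.exists_bound_of_continuousOn hFc.continuousOn
    refine integrable hFc (B := max B 0) fun z => ?_
    by_cases hz : z ∈ tsupport F
    · exact (hB z hz).trans (le_max_left _ _)
    · rw [image_eq_zero_of_notMem_tsupport hz, norm_zero]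
      exact le_max_right _ _
  have hGi : Integrable G (Measure.pi μ) :=
    integrable_finsetSum _ fun k _ => (hHi k).const_mul (c k)
  have hint : ‖(∫ z, F z ∂Measure.pi μ) - ∫ z, G z ∂Measure.pi μ‖ ≤ 2 * δ := by
    rw [← integral_sub hFi hGi]
    have := norm_integral_le_of_norm_le_const (μ := Measure.pi μ) (Eventually.of_forall hFG)
    simpa using this
  have hGh : ∫ z, G z ∂Measure.pi μ = ∑ k, c k * ∏ j, ∫ z, g j (κ k j) z ∂μ j := by
    change ∫ z, ∑ k, c k * H k z ∂Measure.pi μ = _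
    rw [integral_finset_sum _ fun k _ => (hHi k).const_mul (c k)]
    refine Finset.sum_congr rfl fun k _ => ?_
    rw [integral_const_mul]
    congr 1
    exact integral_fintype_prod_eq_prod (fun j z => g j (κ k j) z)
  have hGt : Tendsto (fun i => (mean fun a => G (x i a)) - ∫ z, G z ∂Measure.pi μ) atTop (𝓝 0) := by
    have h1 : ∀ i, (mean fun a => G (x i a)) - ∫ z, G z ∂Measure.pi μ =
        ∑ k, c k * ((mean fun a => ∏ j, g j (κ k j) (x i a j)) -
          ∏ j, ∫ z, g j (κ k j) z ∂μ j) := by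
      intro i
      rw [hGh]
      simp only [mul_sub]
      rw [Finset.sum_sub_distrib]
      congr 1
      unfold mean
      simp only [G, H]
      rw [Finset.sum_comm, Finset.sum_div]
      refine Finset.sum_congr rfl fun k _ => ?_
      rw [← Finset.mul_sum, mul_div_assoc]
    simp only [h1]
    have h2 : Tendsto (fun i => ∑ k, c k * ((mean fun a => ∏ j, g j (κ k j) (x i a j)) -
        ∏ j, ∫ z, g j (κ k j) z ∂μ j)) atTop (𝓝 (∑ k, c k * 0)) :=
      tendsto_finset_sum _ fun k _ =>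
        (h (κ k) fun j => ⟨C' j, hC' j, hκT k j⟩).const_mul (c k)
    simpa using h2
  have hev := (tendsto_zero_iff_norm_tendsto_zero.1 hGt).eventually_lt_const hδ0
  obtain ⟨i0, hi0⟩ := eventually_atTop.1 hev
  refine ⟨i0, fun i hi => ?_⟩
  have h5 := hi0 i hi
  have h6 : ‖(mean fun a => F (x i a)) - mean fun a => G (x i a)‖ ≤ 2 * δ := by
    rw [mean_sub]
    exact mean_le (by positivity) fun a => hFG _
  rw [dist_eq_norm]
  have e : (mean fun a => F (x i a)) - ∫ z, F z ∂Measure.pi μ =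
      ((mean fun a => F (x i a)) - mean fun a => G (x i a)) +
      ((mean fun a => G (x i a)) - ∫ z, G z ∂Measure.pi μ) -
      ((∫ z, F z ∂Measure.pi μ) - ∫ z, G z ∂Measure.pi μ) := by ring
  rw [e]
  refine lt_of_le_of_lt ((norm_sub_le _ _).trans (add_le_add ((norm_add_le _ _).trans
    (add_le_add h6 h5.le)) hint)) ?_
  rw [hδ]
  linarith

end

section
variable {ι : Type} [DecidableEq ι] {G : ι → Type} [∀ j, CommGroup (G j)]

/-- There are endomorphisms `θ` of the factors, trivial on all but the `j`-th one, with `θ(A) ⊆ A`, such that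
the image under `θ` of the `j`-th projection of `A` has index at most `κ`. -/
def Separated (A : Subgroup (∀ j, G j)) (j : ι) (κ : ℝ) : Prop :=
  ∃ θ : ∀ l, G l →* G l, (∀ a ∈ A, (fun l => θ l (a l)) ∈ A) ∧ (∀ l, l ≠ j → ∀ x, θ l x = 1) ∧
    ((((A.map (Pi.evalMonoidHom G j)).map (θ j)).index : ℕ) : ℝ) ≤ κ

theorem index_le [∀ j, Finite (G j)] {A : Subgroup (∀ j, G j)} {j : ι} {κ : ℝ}
    (h : Separated A j κ) : ((factor A j).index : ℝ) ≤ κ := by
  obtain ⟨θ, h1, h2, h3⟩ := h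
  have hle : (A.map (Pi.evalMonoidHom G j)).map (θ j) ≤ factor A j := by
    rintro _ ⟨_, ⟨a, ha, rfl⟩, rfl⟩
    change Pi.mulSingle j (θ j (a j)) ∈ A
    have : Pi.mulSingle j (θ j (a j)) = fun l => θ l (a l) := by
      funext l
      by_cases hl : l = j
      · subst hl
        rw [Pi.mulSingle_eq_same]
      · rw [Pi.mulSingle_eq_of_ne hl, h2 l hl]
    rw [this]
    exact h1 a ha
  refine le_trans ?_ h3
  exact_mod_cast Nat.le_of_dvd (Nat.pos_of_ne_zero Subgroup.index_ne_zero_of_finite)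
    (Subgroup.index_dvd_of_le hle)

end

/-- The Weyl sums of the functions in `S` are small compared with `1 / κ`. -/
def Decay {X : Type} [TopologicalSpace X] [MeasurableSpace X] (μ : Measure X) (S : Set (X → ℂ))
    {G : ℕ → Type} [∀ i, CommGroup (G i)] [∀ i, Fintype (G i)] (φ : ∀ i, G i → X) (κ : ℕ → ℝ) :
    Prop := ∀ f ∈ S, (∃ K, IsCompact K ∧ IsT K f) → ∀ ε : ℝ, 0 < ε →
  ∀ᶠ i in atTop, Weyl (dev μ (φ i) f) (ε / κ i)

section
variable {n : ℕ} {X : Fin n → Type} [∀ j, TopologicalSpace (X j)] [∀ j, MeasurableSpace (X j)]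
  [∀ j, T2Space (X j)] [∀ j, LocallyCompactSpace (X j)] [∀ j, SecondCountableTopology (X j)]
  [∀ j, BorelSpace (X j)] {μ : ∀ j, Measure (X j)} [∀ j, IsProbabilityMeasure (μ j)]
  {G : Fin n → ℕ → Type} [∀ j i, CommGroup (G j i)] [∀ j i, Fintype (G j i)]
  {φ : ∀ j i, G j i → X j}

theorem products {S : ∀ j, Set (X j → ℂ)} (hS : ∀ j, DenseTests (S j)) {κ : Fin n → ℕ → ℝ}
    (hd : ∀ j, Decay (μ j) (S j) (φ j) (κ j)) (A : ∀ i, Subgroup (∀ j, G j i)) [∀ i, Fintype (A i)]
    (hA : ∀ i j, Separated (A i) j (κ j i)) (b : ∀ i j, G j i) :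
    Equi (Measure.pi μ) fun i (a : A i) j => φ j i (a.1 j * b i j) := by
  classical
  refine equi_prod (I := fun j => S j) (g := fun j f => f.1) (fun j C hC => ?_) _ fun e he => ?_
  · obtain ⟨C', hC', h1⟩ := hS j C hC
    refine ⟨C', hC', fun f hf δ hδ => ?_⟩
    obtain ⟨g, hgS, hgT, hg⟩ := h1 f hf δ hδ
    exact ⟨⟨g, hgS⟩, hgT, hg⟩
  have hft : ∀ j x, ‖(e j).1 x‖ ≤ 1 := fun j => (he j).elim fun C hC => hC.2.2.2
  rw [Metric.tendsto_atTop]
  intro ε hε
  set η : ℝ := ε / (2 * (1 + n)) with hη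
  have hη0 : 0 < η := by positivity
  have hev : ∀ᶠ i in atTop, ∀ j, Weyl (dev (μ j) (φ j i) (e j).1) (η / κ j i) :=
    eventually_all.2 fun j => hd j (e j).1 (e j).2 (he j) η hη0
  obtain ⟨i0, hi0⟩ := eventually_atTop.1 hev
  refine ⟨i0, fun i hi => ?_⟩
  rw [dist_zero_right]
  have hp := peel (A i) (fun j C => (e j).1 (φ j i C)) (fun j C => hft j _)
    (fun j => ∫ z, (e j).1 z ∂μ j) (fun j => integral_le (hft j)) (fun _ => η) (fun j g => ?_) (b i)
  · refine lt_of_le_of_lt hp ?_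
    rw [Finset.sum_const, Finset.card_univ, Fintype.card_fin, nsmul_eq_mul]
    have h8 : η * (2 * (1 + n)) = ε := by
      rw [hη]
      field_simp
    nlinarith
  · have h1 := coset_le (factor (A i) j) (dev (μ j) (φ j i) (e j).1) (hi0 i hi j) g
    refine h1.trans ?_
    have h3 := index_le (hA i j)
    have h4 : (0 : ℝ) < (factor (A i) j).index := by
      exact_mod_cast Nat.pos_of_ne_zero Subgroup.index_ne_zero_of_finite
    have h5 : 0 < κ j i := h4.trans_le h3
    calc ((factor (A i) j).index : ℝ) * (η / κ j i) ≤ κ j i * (η / κ j i) :=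
          mul_le_mul_of_nonneg_right h3 (by positivity)
      _ = η := by field_simp

end

end Pool.Agent.X208.GS
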