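import Pool.Agent.X208.GS.Tup

/-! The statement. -/

set_option autoImplicit false

namespace Pool.Agent.X208.GS

open Filter Topology MeasureTheory
open scoped ComplexConjugate
open Pool.Agent.X208.CM (mean Weyl share Spread parseval)

section
variable {G : Type} [CommGroup G] [Fintype G] (A : Subgroup G) [Fintype A]

open Classical in
/-- the number of the characters trivial on `A` -/
theorem card_trivial : (((Finset.univ.filter fun ψ : AddChar (Additive G) ℂ => Trivial A ψ).card : ℕ) : ℝ) =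
    (A.index : ℝ) := by
  have h1 : ∀ a : A, ∑ ψ : AddChar (Additive G) ℂ, ψ (- Additive.ofMul (a : G)) =
      if a = 1 then (Fintype.card G : ℂ) else 0 := by
    intro a
    rw [AddChar.sum_apply_eq_ite]
    have hc : Fintype.card (Additive G) = Fintype.card G := Fintype.card_congr Additive.toMul
    by_cases h : a = 1
    · rw [if_pos h, if_pos (by rw [h]; simp), hc]
    · rw [if_neg h, if_neg]
      intro h0
      rw [neg_eq_zero, ofMul_eq_zero] at h0
      exact h (Subtype.ext h0)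
  have h2 : ∑ ψ : AddChar (Additive G) ℂ, ∑ a : A, ψ (- Additive.ofMul (a : G)) =
      (Fintype.card G : ℂ) := by
    rw [Finset.sum_comm, Finset.sum_congr rfl fun a _ => h1 a,
      Finset.sum_ite_eq' Finset.univ (1 : A), if_pos (Finset.mem_univ _)]
  rw [Finset.sum_congr rfl fun ψ _ => sum_char A ψ, ← Finset.sum_filter, Finset.sum_const,
    nsmul_eq_mul] at h2
  have h3 := Subgroup.card_mul_index A
  rw [Nat.card_eq_fintype_card, Nat.card_eq_fintype_card] at h3
  have h4 : ((Finset.univ.filter fun ψ : AddChar (Additive G) ℂ => Trivial A ψ).card) *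
      Fintype.card A = A.index * Fintype.card A := by
    rw [mul_comm A.index, h3]
    exact_mod_cast h2
  have h5 := Nat.eq_of_mul_eq_mul_right Fintype.card_pos h4
  exact_mod_cast h5

theorem sqSum_le {f : G → ℂ} {w : ℝ} (hw : Weyl f w) : sqSum A f ≤ A.index * w ^ 2 := by
  classical
  unfold sqSum
  refine (Finset.sum_le_sum fun ψ _ => pow_le_pow_left₀ (norm_nonneg _) (hw ψ) 2).trans ?_
  rw [Finset.sum_const, nsmul_eq_mul]
  have := card_trivial A
  exact le_of_eq (by rw [← this])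

theorem absSum_le {f : G → ℂ} {w : ℝ} (hw : Weyl f w) : absSum A f ≤ A.index * w := by
  classical
  unfold absSum
  refine (Finset.sum_le_sum fun ψ _ => hw ψ).trans ?_
  rw [Finset.sum_const, nsmul_eq_mul]
  have := card_trivial A
  exact le_of_eq (by rw [← this])

end

section
variable {X : Type} [TopologicalSpace X] [MeasurableSpace X] {μ : Measure X}
  {G : ℕ → Type} [∀ i, CommGroup (G i)] [∀ i, Fintype (G i)] {φ : ∀ i, G i → X}
  {A : ∀ i, Subgroup (G i)} [∀ i, Fintype (A i)] {S : Set (X → ℂ)}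

theorem index_pos (i : ℕ) : (0 : ℝ) < (A i).index := by
  exact_mod_cast Nat.pos_of_ne_zero Subgroup.index_ne_zero_of_finite

theorem squareLawOn_of_decay (h : Decay μ S φ fun i => Real.sqrt (A i).index) :
    SquareLawOn X μ φ A S := by
  intro f hf hfT
  rw [Metric.tendsto_atTop]
  intro ε hε
  obtain ⟨i0, hi0⟩ := eventually_atTop.1 (h f hf hfT (Real.sqrt (ε / 2)) (by positivity))
  refine ⟨i0, fun i hi => ?_⟩
  have hpos : (0 : ℝ) < (A i).index := index_pos i
  have h0 : 0 ≤ sqSum (A i) (dev μ (φ i) f) := by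
    unfold sqSum
    exact Finset.sum_nonneg fun _ _ => sq_nonneg _
  rw [dist_zero_right, Real.norm_of_nonneg h0]
  refine lt_of_le_of_lt (sqSum_le (A i) (hi0 i hi)) ?_
  rw [div_pow, Real.sq_sqrt (by positivity), Real.sq_sqrt hpos.le, mul_div_cancel₀ _ hpos.ne']
  linarith

theorem absLawOn_of_decay (h : Decay μ S φ fun i => ((A i).index : ℝ)) :
    AbsLawOn X μ φ A S := by
  intro f hf hfT
  rw [Metric.tendsto_atTop]
  intro ε hε
  obtain ⟨i0, hi0⟩ := eventually_atTop.1 (h f hf hfT (ε / 2) (by positivity))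
  refine ⟨i0, fun i hi => ?_⟩
  have hpos : (0 : ℝ) < (A i).index := index_pos i
  have h0 : 0 ≤ absSum (A i) (dev μ (φ i) f) := by
    unfold absSum
    exact Finset.sum_nonneg fun _ _ => norm_nonneg _
  rw [dist_zero_right, Real.norm_of_nonneg h0]
  refine lt_of_le_of_lt (absSum_le (A i) (hi0 i hi)) ?_
  rw [mul_div_cancel₀ _ hpos.ne']
  linarith

end

/-- One space: toric packets `φ` and the orbits of the subgroups `A i` (the Galois orbits). -/
def Packets : Prop := ∀ (X : Type) [TopologicalSpace X] [MeasurableSpace X] [T2Space X]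
  [LocallyCompactSpace X] [SecondCountableTopology X] [BorelSpace X] (μ : Measure X)
  [IsProbabilityMeasure μ] (G : ℕ → Type) [∀ i, CommGroup (G i)] [∀ i, Fintype (G i)]
  (φ : ∀ i, G i → X) (A : ∀ i, Subgroup (G i)) [∀ i, Fintype (A i)],
  (AlmostAllOrbits X μ φ A ↔ SquareLaw X μ φ A) ∧ (AllOrbits X μ φ A → SupLaw X μ φ A) ∧
    ∀ S : Set (X → ℂ), DenseTests S →
      (SquareLawOn X μ φ A S → AlmostAllOrbits X μ φ A) ∧
      (AbsLawOn X μ φ A S → AllOrbits X μ φ A) ∧
      ((Decay μ S φ fun i => Real.sqrt (A i).index) → AlmostAllOrbits X μ φ A) ∧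
      ((Decay μ S φ fun i => ((A i).index : ℝ)) → AllOrbits X μ φ A)

/-- Almost all tuples in products. -/
def Tuples : Prop := ∀ (n : ℕ) (X : Fin n → Type) [∀ j, TopologicalSpace (X j)]
  [∀ j, MeasurableSpace (X j)] [∀ j, T2Space (X j)] [∀ j, LocallyCompactSpace (X j)]
  [∀ j, SecondCountableTopology (X j)] [∀ j, BorelSpace (X j)] (μ : ∀ j, Measure (X j))
  [∀ j, IsProbabilityMeasure (μ j)] (G : Fin n → ℕ → Type) [∀ j i, CommGroup (G j i)]
  [∀ j i, Fintype (G j i)] (φ : ∀ j i, G j i → X j) (S : ∀ j, Set (X j → ℂ)),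
  (∀ j, DenseTests (S j)) → (∀ j, Uniform (μ j) (S j) (φ j)) → ∀ (κ : ℝ) (A : ℕ → Type)
  [∀ i, Fintype (A i)] [∀ i, Nonempty (A i)] (π : ∀ i j, A i → G j i), (∀ i j, Spread (π i j) κ) →
  ∃ E : ∀ i, Set (∀ j, G j i), Tendsto (fun i => share fun b => b ∈ E i) atTop (𝓝 0) ∧
    ∀ b : ∀ i j, G j i, (∀ᶠ i in atTop, b i ∉ E i) →
      Equi (Measure.pi μ) fun i (a : A i) j => φ j i (π i j a * b i j)

/-- All tuples in products, for separated subgroups. -/
def Products : Prop := ∀ (n : ℕ) (X : Fin n → Type) [∀ j, TopologicalSpace (X j)]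
  [∀ j, MeasurableSpace (X j)] [∀ j, T2Space (X j)] [∀ j, LocallyCompactSpace (X j)]
  [∀ j, SecondCountableTopology (X j)] [∀ j, BorelSpace (X j)] (μ : ∀ j, Measure (X j))
  [∀ j, IsProbabilityMeasure (μ j)] (G : Fin n → ℕ → Type) [∀ j i, CommGroup (G j i)]
  [∀ j i, Fintype (G j i)] (φ : ∀ j i, G j i → X j) (S : ∀ j, Set (X j → ℂ)),
  (∀ j, DenseTests (S j)) → ∀ κ : Fin n → ℕ → ℝ, (∀ j, Decay (μ j) (S j) (φ j) (κ j)) →
  ∀ (A : ∀ i, Subgroup (∀ j, G j i)) [∀ i, Fintype (A i)], (∀ i j, Separated (A i) j (κ j i)) →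
  ∀ b : ∀ i j, G j i, Equi (Measure.pi μ) fun i (a : A i) j => φ j i (a.1 j * b i j)

theorem denseTests_univ {X : Type} [TopologicalSpace X] : DenseTests (Set.univ : Set (X → ℂ)) :=
  fun K hK => ⟨K, hK, fun f hf δ hδ => ⟨f, Set.mem_univ _, hf, fun x => by
    rw [sub_self, norm_zero]; exact hδ.le⟩⟩

theorem packets : Packets := by
  intro X _ _ _ _ _ _ μ _ G _ _ φ A _
  refine ⟨⟨square_of_almostAll, fun h => ?_⟩, sup_of_all, fun S hS => ⟨almostAll_of_square hS,
    all_of_abs hS, fun h => ?_, fun h => ?_⟩⟩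
  · exact almostAll_of_square denseTests_univ fun f _ hf => h f hf
  · exact almostAll_of_square hS (squareLawOn_of_decay h)
  · exact all_of_abs hS (absLawOn_of_decay h)

theorem tuples' : Tuples := by
  intro n X _ _ _ _ _ _ μ _ G _ _ φ S hS hd κ A _ _ π hπ
  exact tuples hS hd κ A π hπ

theorem products' : Products := by
  intro n X _ _ _ _ _ _ μ _ G _ _ φ S hS κ hd A _ hA b
  exact products hS hd A hA b

end Pool.Agent.X208.GS
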