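import Pool.Agent.X208.CM.Det

/-! Test functions on locally compact spaces and their products. -/

set_option autoImplicit false

namespace Pool.Agent.X208.GS

open Filter Topology MeasureTheory Set
open scoped ComplexConjugate
open Pool.Agent.X208.CM (mean prod_sub_le)

section
variable {X : Type} [TopologicalSpace X]

/-- Test functions with support in `K`: continuous, `0` outside `K`, bounded by `1`. -/
def IsT (K : Set X) (f : X → ℂ) : Prop := Continuous f ∧ (∀ x, x ∉ K → f x = 0) ∧ ∀ x, ‖f x‖ ≤ 1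

/-- `S` is uniformly dense in the test functions, with common bounds for the supports. -/
def DenseTests (S : Set (X → ℂ)) : Prop := ∀ K : Set X, IsCompact K → ∃ K' : Set X, IsCompact K' ∧
  ∀ f, IsT K f → ∀ δ : ℝ, 0 < δ → ∃ g ∈ S, IsT K' g ∧ ∀ x, ‖f x - g x‖ ≤ δ

theorem isT_mono {K K' : Set X} (h : K ⊆ K') {f : X → ℂ} (hf : IsT K f) : IsT K' f :=
  ⟨hf.1, fun x hx => hf.2.1 x fun hx' => hx (h hx'), hf.2.2⟩

theorem exists_dense [LocallyCompactSpace X] [SecondCountableTopology X] {K : Set X}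
    (hK : IsCompact K) : ∃ D : Set C(X, ℂ), D.Countable ∧ (∀ f ∈ D, IsT K f) ∧
    ∀ f, IsT K f → ∀ δ : ℝ, 0 < δ → ∃ g ∈ D, ∀ z, ‖f z - g z‖ ≤ δ := by
  let TK : Set C(X, ℂ) := {f | IsT K f}
  obtain ⟨s, hs, hd⟩ := TopologicalSpace.exists_countable_dense TK
  refine ⟨Subtype.val '' s, hs.image _, by rintro _ ⟨g, _, rfl⟩; exact g.2, fun f hf δ hδ => ?_⟩
  let f' : C(X, ℂ) := ⟨f, hf.1⟩
  have h1 := (ContinuousMap.tendsto_iff_forall_isCompact_tendstoUniformlyOn
    (F := fun g : C(X, ℂ) => g) (f := f') (p := 𝓝 f')).1 tendsto_id _ hK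
  have h2 := Metric.tendstoUniformlyOn_iff.1 h1 δ hδ
  have h3 : ∀ᶠ g : TK in 𝓝 ⟨f', hf⟩, ∀ z ∈ K, dist (f' z) ((g : C(X, ℂ)) z) < δ :=
    (continuous_subtype_val.tendsto (⟨f', hf⟩ : TK)).eventually h2
  obtain ⟨U, hU, hUo, hfU⟩ := mem_nhds_iff.1 h3
  obtain ⟨g, hgU, hgs⟩ := hd.inter_open_nonempty U hUo ⟨_, hfU⟩
  refine ⟨g, ⟨g, hgs, rfl⟩, fun z => ?_⟩
  by_cases hz : z ∈ K
  · rw [← dist_eq_norm]
    exact (hU hgU z hz).le
  · have e1 : f z = 0 := hf.2.1 z hz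
    have e2 : (g : C(X, ℂ)) z = 0 := g.2.2.1 z hz
    rw [e1, e2, sub_zero, norm_zero]
    exact hδ.le

/-- a countable subfamily of a dense family -/
theorem exists_family [T2Space X] [LocallyCompactSpace X] [SecondCountableTopology X]
    {S : Set (X → ℂ)} (hS : DenseTests S) : ∃ g : ℕ → X → ℂ,
    (∀ k, g k ∈ S ∧ ∃ K, IsCompact K ∧ IsT K (g k)) ∧
    ∀ K, IsCompact K → ∃ K', IsCompact K' ∧ ∀ f, IsT K f → ∀ δ : ℝ, 0 < δ →
      ∃ k, IsT K' (g k) ∧ ∀ x, ‖f x - g k x‖ ≤ δ := by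
  classical
  let E := CompactExhaustion.choice X
  choose D hD hDT hap using fun N => exists_dense (E.isCompact N)
  choose K' hK' hg using fun N => hS (E N) (E.isCompact N)
  choose g hgS hgT hgap using hg
  -- the index type
  let J := Σ N, (D N) × ℕ
  haveI : ∀ N, Countable (D N) := fun N => (hD N).to_subtype
  haveI : Countable J := inferInstance
  let G : J → X → ℂ := fun p => g p.1 p.2.1.1 (hDT p.1 p.2.1.1 p.2.1.2) (1 / ((p.2.2 : ℝ) + 1))
    (by positivity)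
  have hJ : Nonempty J := by
    obtain ⟨g0, hg0, -⟩ := hap 0 (fun _ => 0) ⟨continuous_const, fun _ _ => rfl, fun _ => by simp⟩ 1
      one_pos
    exact ⟨⟨0, ⟨g0, hg0⟩, 0⟩⟩
  obtain ⟨e, he⟩ := exists_surjective_nat J
  refine ⟨fun k => G (e k), fun k => ⟨hgS _ _ _ _ _, K' (e k).1, hK' _, hgT _ _ _ _ _⟩,
    fun K hK => ?_⟩
  obtain ⟨N, hN⟩ := E.exists_superset_of_isCompact hK
  refine ⟨K' N, hK' N, fun f hf δ hδ => ?_⟩
  obtain ⟨f', hf'D, hf'⟩ := hap N f (isT_mono hN hf) (δ / 2) (by positivity)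
  obtain ⟨m, hm⟩ := exists_nat_one_div_lt (half_pos hδ)
  obtain ⟨k, hk⟩ := he ⟨N, ⟨f', hf'D⟩, m⟩
  refine ⟨k, ?_, fun x => ?_⟩
  · simp only [hk]
    exact hgT _ _ _ _ _
  · simp only [hk]
    have h1 := hf' x
    have h2 := hgap N f' (hDT N f' hf'D) (1 / ((m : ℝ) + 1)) (by positivity) x
    have h3 := norm_add_le (f x - f' x)
      (f' x - g N f' (hDT N f' hf'D) (1 / ((m : ℝ) + 1)) (by positivity) x)
    rw [sub_add_sub_cancel] at h3
    have h4 : f x - G ⟨N, ⟨f', hf'D⟩, m⟩ x =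
        f x - g N f' (hDT N f' hf'D) (1 / ((m : ℝ) + 1)) (by positivity) x := rfl
    rw [h4]
    linarith

end

section
variable {n : ℕ} {X : Fin n → Type} [∀ j, TopologicalSpace (X j)] [∀ j, T2Space (X j)]
  [∀ j, LocallyCompactSpace (X j)]

/-- finite sums of products -/
def IsSum {K : ∀ j, Set (X j)} (G : C(∀ j, K j, ℂ)) : Prop :=
  ∃ (ι : Type) (_ : Fintype ι) (c : ι → ℂ) (g : ι → ∀ j, C(X j, ℂ)),
    ∀ x, G x = ∑ k, c k * ∏ j, g k j (x j)

omit [∀ j, T2Space (X j)] [∀ j, LocallyCompactSpace (X j)] in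
theorem isSum_adjoin {K : ∀ j, Set (X j)} {G : C(∀ j, K j, ℂ)}
    (hG : G ∈ StarAlgebra.adjoin ℂ {G : C(∀ j, K j, ℂ) | ∃ (j : Fin n) (g : C(X j, ℂ)),
      ∀ x, G x = g (x j)}) : IsSum G := by
  classical
  induction hG using StarAlgebra.adjoin_induction with
  | mem G h =>
    obtain ⟨j, g, h⟩ := h
    refine ⟨Unit, inferInstance, fun _ => 1, fun _ => Function.update (fun _ => 1) j g, fun x => ?_⟩
    rw [h, Finset.univ_unique, Finset.sum_singleton, one_mul,
      Finset.prod_eq_single j (fun l _ hl => by simp only [Function.update_of_ne hl]; rfl)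
        (fun hj => absurd (Finset.mem_univ j) hj)]
    simp only [Function.update_self]
  | algebraMap r =>
    refine ⟨Unit, inferInstance, fun _ => r, fun _ _ => 1, fun x => ?_⟩
    simp
  | add G H _ _ hG hH =>
    obtain ⟨ι, _, c, g, hg⟩ := hG
    obtain ⟨ι', _, c', g', hg'⟩ := hH
    refine ⟨ι ⊕ ι', inferInstance, Sum.elim c c', Sum.elim g g', fun x => ?_⟩
    rw [Fintype.sum_sum_type, ContinuousMap.add_apply, hg, hg']
    rfl
  | mul G H _ _ hG hH =>
    obtain ⟨ι, _, c, g, hg⟩ := hG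
    obtain ⟨ι', _, c', g', hg'⟩ := hH
    refine ⟨ι × ι', inferInstance, fun p => c p.1 * c' p.2, fun p j => g p.1 j * g' p.2 j,
      fun x => ?_⟩
    rw [ContinuousMap.mul_apply, hg, hg', Finset.sum_mul_sum, Fintype.sum_prod_type]
    refine Finset.sum_congr rfl fun a _ => Finset.sum_congr rfl fun b _ => ?_
    simp only [ContinuousMap.mul_apply, Finset.prod_mul_distrib]
    ring
  | star G _ hG =>
    obtain ⟨ι, _, c, g, hg⟩ := hG
    refine ⟨ι, inferInstance, fun k => conj (c k), fun k j => star (g k j), fun x => ?_⟩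
    rw [ContinuousMap.star_apply, hg]
    simp only [ContinuousMap.star_apply, star_sum, star_mul', star_prod]
    rfl

/-- Stone and Weierstrass -/
theorem sw {K : ∀ j, Set (X j)} (hK : ∀ j, IsCompact (K j)) (G : C(∀ j, K j, ℂ)) {δ : ℝ}
    (hδ : 0 < δ) : ∃ (ι : Type) (_ : Fintype ι) (c : ι → ℂ) (g : ι → ∀ j, C(X j, ℂ)),
      ∀ x : ∀ j, K j, ‖G x - ∑ k, c k * ∏ j, g k j (x j)‖ ≤ δ := by
  have : ∀ j, CompactSpace (K j) := fun j => isCompact_iff_compactSpace.1 (hK j)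
  set S : StarSubalgebra ℂ C(∀ j, K j, ℂ) := StarAlgebra.adjoin ℂ
    {G : C(∀ j, K j, ℂ) | ∃ (j : Fin n) (g : C(X j, ℂ)), ∀ x, G x = g (x j)} with hS
  have hsep : S.SeparatesPoints := by
    intro x y hxy
    obtain ⟨j, hj⟩ := Function.ne_iff.1 hxy
    have hj' : (x j : X j) ≠ y j := fun h => hj (Subtype.ext h)
    obtain ⟨f, hf1, hf0, -, -⟩ := exists_continuous_one_zero_of_isCompact
      (isCompact_singleton (x := (x j : X j))) (isClosed_singleton (x := (y j : X j)))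
      (Set.disjoint_singleton.2 hj')
    let g : C(X j, ℂ) := ⟨fun z => (f z : ℂ), by fun_prop⟩
    let H : C(∀ j, K j, ℂ) := ⟨fun z => g (z j), by fun_prop⟩
    refine ⟨H, ⟨H, StarAlgebra.subset_adjoin ℂ _ ⟨j, g, fun z => rfl⟩, rfl⟩, ?_⟩
    have e1 : f (x j) = 1 := hf1 (mem_singleton _)
    have e0 : f (y j) = 0 := hf0 (mem_singleton _)
    change ((f (x j) : ℝ) : ℂ) ≠ ((f (y j) : ℝ) : ℂ)
    rw [e1, e0]
    simp
  have htop := ContinuousMap.starSubalgebra_topologicalClosure_eq_top_of_separatesPoints S hsep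
  have hmem : G ∈ S.topologicalClosure := by rw [htop]; trivial
  have hcl : G ∈ closure (S : Set C(∀ j, K j, ℂ)) := hmem
  obtain ⟨H, hH, hd⟩ := Metric.mem_closure_iff.1 hcl δ hδ
  obtain ⟨ι, i1, c, g, hg⟩ := isSum_adjoin hH
  refine ⟨ι, i1, c, g, fun x => ?_⟩
  rw [← hg x, ← dist_eq_norm]
  exact (ContinuousMap.dist_apply_le_dist x).trans hd.le

/-- all test functions on the product are approximated by tensors -/
theorem approx {F : (∀ j, X j) → ℂ} (hF : Continuous F) (hc : HasCompactSupport F) :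
    ∃ C : ∀ j, Set (X j), (∀ j, IsCompact (C j)) ∧
      ∀ δ : ℝ, 0 < δ → ∃ (ι : Type) (_ : Fintype ι) (c : ι → ℂ) (f : ι → ∀ j, X j → ℂ),
        (∀ k j, IsT (C j) (f k j)) ∧ ∀ z, ‖F z - ∑ k, c k * ∏ j, f k j (z j)‖ ≤ δ := by
  classical
  have hK0 : ∀ j, IsCompact ((fun z : ∀ j, X j => z j) '' tsupport F) := fun j =>
    hc.isCompact.image (continuous_apply j)
  choose χ hχ1 hχ0 hχc hχ01 using fun j => exists_continuous_one_zero_of_isCompact (hK0 j)
    (isClosed_empty (X := X j)) (disjoint_empty _)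
  set C : ∀ j, Set (X j) := fun j => tsupport (χ j) with hC
  have hCc : ∀ j, IsCompact (C j) := fun j => (hχc j).isCompact
  let G : C(∀ j, C j, ℂ) := ⟨fun x => F fun j => (x j : X j),
    hF.comp (continuous_pi fun j => continuous_subtype_val.comp (continuous_apply j))⟩
  have hcut : ∀ z : ∀ j, X j, F z = F z * ∏ j, ((χ j (z j) : ℝ) : ℂ) := by
    intro z
    by_cases h : z ∈ tsupport F
    · have h2 : ∀ j, χ j (z j) = 1 := fun j => hχ1 j ⟨z, h, rfl⟩
      simp only [h2, Complex.ofReal_one, Finset.prod_const_one, mul_one]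
    · rw [image_eq_zero_of_notMem_tsupport h, zero_mul]
  refine ⟨C, hCc, fun δ hδ => ?_⟩
  obtain ⟨ι, iι, c, g, hg⟩ := sw hCc G hδ
  let h : ι → ∀ j, X j → ℂ := fun k j x => ((χ j x : ℝ) : ℂ) * g k j x
  have hh : ∀ k j x, h k j x = ((χ j x : ℝ) : ℂ) * g k j x := fun _ _ _ => rfl
  have hhc : ∀ k j, Continuous (h k j) := fun k j => by
    have h1 := (χ j).continuous
    have h2 := (g k j).continuous
    exact (Complex.continuous_ofReal.comp h1).mul h2
  have hzero : ∀ j x, x ∉ C j → χ j x = 0 := fun j x hx => image_eq_zero_of_notMem_tsupport hx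
  have hbd : ∀ k j, ∃ B : ℝ, 0 < B ∧ ∀ x, ‖h k j x‖ ≤ B := by
    intro k j
    obtain ⟨B, hB⟩ := (hCc j).exists_bound_of_continuousOn (hhc k j).continuousOn
    refine ⟨max B 1, lt_of_lt_of_le zero_lt_one (le_max_right _ _), fun x => ?_⟩
    by_cases hx : x ∈ C j
    · exact (hB x hx).trans (le_max_left _ _)
    · rw [hh, hzero j x hx]
      simp
  choose B hB0 hB using hbd
  let f : ι → ∀ j, X j → ℂ := fun k j z => ((B k j : ℝ) : ℂ)⁻¹ * h k j z
  have hf : ∀ k j z, f k j z = ((B k j : ℝ) : ℂ)⁻¹ * h k j z := fun _ _ _ => rfl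
  refine ⟨ι, iι, fun k => c k * ∏ j, ((B k j : ℝ) : ℂ), f, fun k j => ⟨?_, fun z hz => ?_,
    fun z => ?_⟩, fun z => ?_⟩
  · exact continuous_const.mul (hhc k j)
  · rw [hf, hh, hzero j z hz]
    simp
  · rw [hf, norm_mul, norm_inv, Complex.norm_real, Real.norm_of_nonneg (hB0 k j).le,
      inv_mul_le_iff₀ (hB0 k j), mul_one]
    exact hB k j _
  · have e : F z - ∑ k, (c k * ∏ j, ((B k j : ℝ) : ℂ)) * ∏ j, f k j (z j) =
        (∏ j, ((χ j (z j) : ℝ) : ℂ)) * (F z - ∑ k, c k * ∏ j, g k j (z j)) := by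
      rw [mul_sub, mul_comm (∏ j, ((χ j (z j) : ℝ) : ℂ)) (F z), ← hcut z, Finset.mul_sum]
      congr 1
      refine Finset.sum_congr rfl fun k _ => ?_
      simp only [hf, hh, Finset.prod_mul_distrib]
      have hb : (∏ j, ((B k j : ℝ) : ℂ)) * ∏ j, ((B k j : ℝ) : ℂ)⁻¹ = 1 := by
        rw [← Finset.prod_mul_distrib]
        refine Finset.prod_eq_one fun j _ => ?_
        exact mul_inv_cancel₀ (by exact_mod_cast (hB0 k j).ne')
      calc (c k * ∏ j, ((B k j : ℝ) : ℂ)) * ((∏ j, ((B k j : ℝ) : ℂ)⁻¹) *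
            ((∏ j, ((χ j (z j) : ℝ) : ℂ)) * ∏ j, g k j (z j))) =
          ((∏ j, ((B k j : ℝ) : ℂ)) * ∏ j, ((B k j : ℝ) : ℂ)⁻¹) *
            ((∏ j, ((χ j (z j) : ℝ) : ℂ)) * (c k * ∏ j, g k j (z j))) := by ring
        _ = _ := by rw [hb, one_mul]
    rw [e]
    by_cases hx : ∀ j, z j ∈ C j
    · have h1 := hg fun j => ⟨z j, hx j⟩
      have h2 : G (fun j => ⟨z j, hx j⟩) = F z := rfl
      rw [h2] at h1
      rw [norm_mul, norm_prod]
      have h3 : ∏ j, ‖((χ j (z j) : ℝ) : ℂ)‖ ≤ 1 := by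
        refine Finset.prod_le_one (fun _ _ => norm_nonneg _) fun j _ => ?_
        rw [Complex.norm_real, Real.norm_of_nonneg (hχ01 j _).1]
        exact (hχ01 j _).2
      calc _ ≤ 1 * δ := mul_le_mul h3 h1 (norm_nonneg _) zero_le_one
        _ = δ := one_mul δ
    · push Not at hx
      obtain ⟨j, hj⟩ := hx
      have : ∏ j, ((χ j (z j) : ℝ) : ℂ) = 0 := by
        refine Finset.prod_eq_zero (Finset.mem_univ j) ?_
        rw [hzero j _ hj, Complex.ofReal_zero]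
      rw [this, zero_mul, norm_zero]
      exact hδ.le

end

end Pool.Agent.X208.GS
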