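import Pool.Agent.X208.GS.Prod

/-! Almost all tuples in products of spaces. -/

set_option autoImplicit false

namespace Pool.Agent.X208.GS

open Filter Topology MeasureTheory
open scoped ComplexConjugate
open Pool.Agent.X208.CM (mean mean_le Weyl share share_nonneg Spread tuple cheb diag spread_mono)

/-- All Weyl sums of the functions in `S`, with all characters, tend to `0` uniformly. -/
def Uniform {X : Type} [TopologicalSpace X] [MeasurableSpace X] (μ : Measure X) (S : Set (X → ℂ))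
    {G : ℕ → Type} [∀ i, CommGroup (G i)] [∀ i, Fintype (G i)] (φ : ∀ i, G i → X) : Prop :=
  ∀ f ∈ S, (∃ K, IsCompact K ∧ IsT K f) → ∀ ε : ℝ, 0 < ε →
    ∀ᶠ i in atTop, Weyl (dev μ (φ i) f) ε

section
variable {n : ℕ} {X : Fin n → Type} [∀ j, TopologicalSpace (X j)] [∀ j, MeasurableSpace (X j)]
  [∀ j, T2Space (X j)] [∀ j, LocallyCompactSpace (X j)] [∀ j, SecondCountableTopology (X j)]
  [∀ j, BorelSpace (X j)] {μ : ∀ j, Measure (X j)} [∀ j, IsProbabilityMeasure (μ j)]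
  {G : Fin n → ℕ → Type} [∀ j i, CommGroup (G j i)] [∀ j i, Fintype (G j i)]
  {φ : ∀ j i, G j i → X j}

omit [∀ j, T2Space (X j)] [∀ j, LocallyCompactSpace (X j)] [∀ j, SecondCountableTopology (X j)]
  [∀ j, BorelSpace (X j)] in
theorem share_tuple {κ : ℝ} {A : ℕ → Type} [∀ i, Fintype (A i)] [∀ i, Nonempty (A i)]
    {π : ∀ i j, A i → G j i} (hπ : ∀ i j, Spread (π i j) κ) (f : ∀ j, X j → ℂ)
    (hf : ∀ j x, ‖f j x‖ ≤ 1)
    (h : ∀ j, ∀ ε : ℝ, 0 < ε → ∀ᶠ i in atTop, Weyl (dev (μ j) (φ j i) (f j)) ε)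
    (ε : ℝ) (hε : 0 < ε) : Tendsto (fun i => share fun b : ∀ j, G j i =>
      ε < ‖(mean fun a : A i => ∏ j, f j (φ j i (π i j a * b j))) - ∏ j, ∫ z, f j z ∂μ j‖)
      atTop (𝓝 0) := by
  rw [tendsto_order]
  refine ⟨fun a ha => Eventually.of_forall fun i => ha.trans_le (share_nonneg _), fun δ hδ => ?_⟩
  set κ' := max κ 0 with hκ'
  obtain ⟨w, hw, hwδ⟩ : ∃ w : ℝ, 0 < w ∧ (n : ℝ) ^ 2 * κ' * w ^ 2 / ε ^ 2 < δ := by
    have hlim : Tendsto (fun w : ℝ => (n : ℝ) ^ 2 * κ' * w ^ 2 / ε ^ 2) (𝓝[>] 0) (𝓝 0) := by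
      have : Tendsto (fun w : ℝ => (n : ℝ) ^ 2 * κ' * w ^ 2 / ε ^ 2) (𝓝 0)
          (𝓝 ((n : ℝ) ^ 2 * κ' * 0 ^ 2 / ε ^ 2)) := by
        refine Continuous.tendsto ?_ 0
        fun_prop
      simp only [ne_eq, OfNat.ofNat_ne_zero, not_false_eq_true, zero_pow, mul_zero, zero_div] at this
      exact this.mono_left nhdsWithin_le_nhds
    have h1 := (hlim.eventually_lt_const hδ).and self_mem_nhdsWithin
    obtain ⟨w, hw1, hw2⟩ := h1.exists
    exact ⟨w, hw2, hw1⟩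
  have hev : ∀ᶠ i in atTop, ∀ j, Weyl (dev (μ j) (φ j i) (f j)) w :=
    eventually_all.2 fun j => h j w hw
  filter_upwards [hev] with i hi
  refine lt_of_le_of_lt (cheb (fun b : ∀ j, G j i =>
    (mean fun a : A i => ∏ j, f j (φ j i (π i j a * b j))) - ∏ j, ∫ z, f j z ∂μ j) hε ?_ ?_) hwδ
  · positivity
  · have := tuple (A := A i) (G := fun j => G j i) (π i) (κ := κ')
      (fun j => spread_mono (hπ i j) (le_max_left _ _)) (fun j C => f j (φ j i C))
      (fun j c => hf j _) (fun j => ∫ z, f j z ∂μ j) (fun j => integral_le (hf j)) (w := w) hi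
      (le_max_right _ _)
    rw [Fintype.card_fin] at this
    exact this

theorem tuples {S : ∀ j, Set (X j → ℂ)} (hS : ∀ j, DenseTests (S j))
    (hd : ∀ j, Uniform (μ j) (S j) (φ j)) (κ : ℝ) (A : ℕ → Type) [∀ i, Fintype (A i)]
    [∀ i, Nonempty (A i)] (π : ∀ i j, A i → G j i) (hπ : ∀ i j, Spread (π i j) κ) :
    ∃ E : ∀ i, Set (∀ j, G j i), Tendsto (fun i => share fun b => b ∈ E i) atTop (𝓝 0) ∧
      ∀ b : ∀ i j, G j i, (∀ᶠ i in atTop, b i ∉ E i) →
        Equi (Measure.pi μ) fun i (a : A i) j => φ j i (π i j a * b i j) := by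
  choose g hg hap using fun j => exists_family (hS j)
  obtain ⟨e, he⟩ := exists_surjective_nat (Fin n → ℕ)
  obtain ⟨E, hE, hb⟩ := diag (B := fun i => ∀ j, G j i) (fun k i b =>
    (mean fun a : A i => ∏ j, g j (e k j) (φ j i (π i j a * b j))) -
      ∏ j, ∫ z, g j (e k j) z ∂μ j)
    fun k ε hε => share_tuple hπ (fun j => g j (e k j))
      (fun j => by
        obtain ⟨C, -, hC⟩ := (hg j (e k j)).2
        exact hC.2.2)
      (fun j => hd j _ (hg j (e k j)).1 (hg j (e k j)).2) ε hε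
  refine ⟨E, hE, fun b hbE => equi_prod (I := fun _ => ℕ) (g := g) hap _ fun k _ => ?_⟩
  obtain ⟨k, rfl⟩ := he k
  exact hb b hbE k

end

end Pool.Agent.X208.GS
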